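import Pool.Agent.HArea.Rigid

open MeasureTheory Complex Set Filter Topology

namespace HArea

variable {f : ℂ → ℂ} (hf : InnerProductSpace.HarmonicOnNhd f (Metric.ball 0 1))
  (hb : ∀ z ∈ Metric.ball (0:ℂ) 1, ‖f z‖ ≤ 1) {r : ℝ} (hr : 0 < r) (hr1 : r < 1)

include hf hr1 in
theorem compact_K : IsCompact (f '' Metric.closedBall 0 r) :=
  (isCompact_closedBall 0 r).image_of_continuousOn
    (hf.continuousOn.mono (Metric.closedBall_subset_ball hr1))

include hr in
theorem nonempty_K : (f '' Metric.closedBall (0:ℂ) r).Nonempty :=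
  (Metric.nonempty_closedBall.2 hr.le).image f

include hf hr hr1 in
theorem int_supp_nonneg : 0 ≤ ∫ θ, supp (f '' Metric.closedBall 0 r) θ ∂μ₀ := by
  have hK := compact_K hf hr1
  obtain ⟨k, hk⟩ := nonempty_K (f := f) hr
  have h1 : ∫ θ : ℝ, (k * Complex.exp (-(θ * I))).re ∂μ₀ = 0 := by
    have hi : Integrable (fun θ : ℝ => k * Complex.exp (-(θ * I))) μ₀ := by
      apply Continuous.integrableOn_Ioc; fun_prop
    have h2 := integral_re hi
    simp only [RCLike.re_eq_complex_re] at h2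
    have h3 := int_exp_eps (ε := 1) (Or.inl rfl)
    simp only [Complex.ofReal_one, one_mul] at h3
    rw [h2, integral_const_mul, h3]; simp
  rw [← h1]
  apply integral_mono
  · apply Continuous.integrableOn_Ioc; fun_prop
  · exact Continuous.integrableOn_Ioc (supp_continuous hK ⟨k, hk⟩)
  · intro θ
    exact re_le_supp hK hk θ

include hf hb hr hr1 in
/-- The mean width estimate: the perimeter of the convex hull of `f(D_r)` is at most `2πr`. -/
theorem width_le : (∫ θ, supp (f '' Metric.closedBall 0 r) θ ∂μ₀) ≤ 2 * Real.pi * r := by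
  obtain ⟨α, hα, _, hsel⟩ := exists_selection hf hr hr1
  exact width_le_aux hf hb hr hr1 hα hsel

include hf hb hr hr1 in
theorem area_closed_le : volume.real (f '' Metric.closedBall 0 r) ≤ Real.pi * r ^ 2 := by
  have h := urysohn_plane _ (compact_K hf hr1) (nonempty_K hr)
  rw [← int_eq_interval] at h
  refine h.trans ?_
  have h1 := width_le hf hb hr hr1
  have h0 := int_supp_nonneg hf hr hr1
  have h2 : (∫ θ, supp (f '' Metric.closedBall 0 r) θ ∂μ₀) ^ 2 ≤ (2 * Real.pi * r) ^ 2 :=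
    pow_le_pow_left₀ h0 h1 2
  have hpi := Real.pi_pos
  rw [div_le_iff₀ (by positivity)]
  calc _ ≤ _ := h2
    _ = _ := by ring

theorem vol_ball_real : volume.real (Metric.ball (0:ℂ) r) = Real.pi * (max r 0) ^ 2 := by
  rw [Measure.real, Complex.volume_ball, ENNReal.toReal_mul, ENNReal.toReal_pow,
    ENNReal.toReal_ofReal']
  simp [mul_comm]

include hf hb hr hr1 in
theorem area_le : volume (f '' Metric.ball 0 r) ≤ volume (Metric.ball (0:ℂ) r) := by
  have h1 := area_closed_le hf hb hr hr1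
  have hfin : volume (f '' Metric.closedBall 0 r) ≠ ⊤ := (compact_K hf hr1).measure_lt_top.ne
  have h2 : volume (f '' Metric.ball 0 r) ≤ volume (f '' Metric.closedBall 0 r) :=
    measure_mono (image_mono Metric.ball_subset_closedBall)
  refine h2.trans ?_
  rw [← ENNReal.toReal_le_toReal hfin measure_ball_lt_top.ne]
  have h3 := vol_ball_real (r := r)
  rw [max_eq_left hr.le] at h3
  rw [Measure.real] at h1 h3
  rw [h3]; exact h1

include hf hb hr hr1 in
theorem width_eq_of_area (h : volume (Metric.ball (0:ℂ) r) ≤ volume (f '' Metric.ball 0 r)) :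
    (∫ θ, supp (f '' Metric.closedBall 0 r) θ ∂μ₀) = 2 * Real.pi * r := by
  have hfin : volume (f '' Metric.closedBall 0 r) ≠ ⊤ := (compact_K hf hr1).measure_lt_top.ne
  have h2 : volume (Metric.ball (0:ℂ) r) ≤ volume (f '' Metric.closedBall 0 r) :=
    h.trans (measure_mono (image_mono Metric.ball_subset_closedBall))
  have h3 : volume.real (Metric.ball (0:ℂ) r) ≤ volume.real (f '' Metric.closedBall 0 r) :=
    ENNReal.toReal_mono hfin h2
  rw [vol_ball_real, max_eq_left hr.le] at h3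
  have h4 := urysohn_plane _ (compact_K hf hr1) (nonempty_K hr)
  rw [← int_eq_interval] at h4
  have h5 := h3.trans h4
  have hpi := Real.pi_pos
  rw [le_div_iff₀ (by positivity)] at h5
  have h0 := int_supp_nonneg hf hr hr1
  have h6 : (2 * Real.pi * r) ^ 2 ≤ (∫ θ, supp (f '' Metric.closedBall 0 r) θ ∂μ₀) ^ 2 := by
    calc _ = _ := by ring
      _ ≤ _ := h5
  have h7 : 2 * Real.pi * r ≤ ∫ θ, supp (f '' Metric.closedBall 0 r) θ ∂μ₀ :=
    le_of_sq_le_sq h6 h0 
  exact le_antisymm (width_le hf hb hr hr1) h7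

include hf hb hr hr1 in
theorem rigidity (h : volume (Metric.ball (0:ℂ) r) ≤ volume (f '' Metric.ball 0 r)) :
    ∃ c : ℂ, ‖c‖ = 1 ∧ ((∀ z ∈ Metric.ball (0:ℂ) 1, f z = c * z) ∨
      (∀ z ∈ Metric.ball (0:ℂ) 1, f z = c * (starRingEnd ℂ) z)) := by
  have heq := width_eq_of_area hf hb hr hr1 h
  obtain ⟨α, hα, hI, hsel⟩ := exists_selection hf hr hr1
  have hD := Df_ae_zero hf hb hr hr1 hα hsel heq
  obtain ⟨C, A, hA, hG⟩ := isometry_circle (Gf α) (G_isom hα hI hD)
  -- unify the two cases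
  obtain ⟨ε, hε, hGε⟩ : ∃ ε : ℝ, (ε = 1 ∨ ε = -1) ∧ ∀ t ∈ Ioo 0 (2 * Real.pi),
      Gf α t = C + A * Complex.exp (ε * t * I) := by
    rcases hG with h1 | h1
    · refine ⟨1, Or.inl rfl, ?_⟩
      intro t ht; rw [h1 t ht]; simp
    · refine ⟨-1, Or.inr rfl, ?_⟩
      intro t ht; rw [h1 t ht]; simp
  obtain ⟨φ, hφ⟩ := phase_const hα (phase_norm hα hI hε hA hGε)
  -- the averaged identity at radius r
  have hexp : ∀ᵐ θ ∂μ₀, Complex.exp (α θ * I) = Complex.exp (ε * ((θ - φ : ℝ) : ℂ) * I) := by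
    filter_upwards [hφ] with θ hθ
    rcases hε with h1 | h1
    · rw [h1] at hθ ⊢
      simpa using hθ
    · rw [h1] at hθ ⊢
      have h2 := congrArg (fun z => z⁻¹) hθ
      simp only [← Complex.exp_neg] at h2
      rw [show (((-1:ℝ):ℂ) * ((θ - φ : ℝ) : ℂ) * I) = -(((θ - φ : ℝ) : ℂ) * I) by push_cast; ring,
        ← h2]
      congr 1; push_cast; ring
  have h1 : ∫ θ, (f (r * Complex.exp (ε * ((θ - φ : ℝ) : ℂ) * I)) *
      Complex.exp (-((((θ - φ) + φ : ℝ) : ℂ) * I))).re ∂μ₀ = 2 * Real.pi * r := by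
    rw [← heq]
    apply integral_congr_ae
    filter_upwards [hexp] with θ hθ
    rw [hsel, ← hθ, sub_add_cancel]
  have h2 : ∫ a, (f (r * Complex.exp (ε * a * I)) *
      Complex.exp (-(((a + φ : ℝ) : ℂ) * I))).re ∂μ₀ = 2 * Real.pi * r := by
    rw [← h1]
    symm
    exact periodic_shift (fun a : ℝ => (f (r * Complex.exp (ε * a * I)) *
      Complex.exp (-(((a + φ : ℝ) : ℂ) * I))).re) (by
        intro a
        simp only
        rw [exp_eps_periodic hε, exp_neg_periodic]) φ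
  have h3 : ∀ ρ, r < ρ → ρ < 1 → ∫ t, (f (ρ * Complex.exp (ε * t * I)) *
      Complex.exp (-(((t + φ : ℝ) : ℂ) * I))).re ∂μ₀ = 2 * Real.pi * ρ :=
    fun ρ hρ hρ1 => coeff_transfer hf hε hb hr hρ hρ1 h2
  have h4 := fun (s : ℝ) (hs : 0 ≤ s) (hs1 : s < 1) (b : ℝ) =>
    rigid hf hε hb hr1 h3 hs hs1 b
  refine ⟨Complex.exp (φ * I), Complex.norm_exp_ofReal_mul_I φ, ?_⟩
  rcases hε with h5 | h5
  · left
    intro z hz
    have hz1 : ‖z‖ < 1 := by simpa using hz
    have h6 := h4 ‖z‖ (norm_nonneg z) hz1 z.arg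
    have h7 := Complex.norm_mul_exp_arg_mul_I z
    rw [h5, show (((1:ℝ):ℂ) * z.arg * I) = z.arg * I by push_cast; ring, h7] at h6
    exact h6
  · right
    intro z hz
    have hz1 : ‖z‖ < 1 := by simpa using hz
    have h6 := h4 ‖z‖ (norm_nonneg z) hz1 (-z.arg)
    have h7 := Complex.norm_mul_exp_arg_mul_I z
    have h8 : (‖z‖ : ℂ) * Complex.exp (((-z.arg : ℝ) : ℂ) * I) = (starRingEnd ℂ) z := by
      conv_rhs => rw [← h7]
      rw [map_mul, Complex.conj_ofReal, ← Complex.exp_conj]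
      congr 2
      simp
    rw [h5, h8, show (((-1:ℝ):ℂ) * ((-z.arg : ℝ) : ℂ) * I) = z.arg * I by push_cast; ring, h7] at h6
    exact h6

end HArea
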