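import Mathlib

open MeasureTheory Set
open scoped Pointwise ENNReal

namespace HArea

theorem vol_add_compact (S T : Set ℝ) (hS : IsCompact S) (hT : IsCompact T)
    (hSn : S.Nonempty) (hTn : T.Nonempty) : volume S + volume T ≤ volume (S + T) := by
  set s := sSup S with hs
  set t := sInf T with ht
  have hsS : s ∈ S := hS.sSup_mem hSn
  have htT : t ∈ T := hT.sInf_mem hTn
  have h1 : (fun x => x + t) '' S ⊆ S + T := by
    rintro _ ⟨x, hx, rfl⟩
    exact Set.add_mem_add hx htT
  have h2 : (fun x => s + x) '' T ⊆ S + T := by
    rintro _ ⟨x, hx, rfl⟩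
    exact Set.add_mem_add hsS hx
  have v1 : volume ((fun x => x + t) '' S) = volume S := by
    rw [Set.image_add_right]
    exact measure_preimage_add_right _ _ _
  have v2 : volume ((fun x => s + x) '' T) = volume T := by
    rw [Set.image_add_left]
    exact measure_preimage_add _ _ _
  have m2 : MeasurableSet ((fun x => s + x) '' T) :=
    (hT.image (by fun_prop)).measurableSet
  have hd : AEDisjoint volume ((fun x => x + t) '' S) ((fun x => s + x) '' T) := by
    have : ((fun x => x + t) '' S) ∩ ((fun x => s + x) '' T) ⊆ {s + t} := by
      rintro z ⟨⟨x, hx, rfl⟩, ⟨y, hy, hxy⟩⟩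
      have a1 : x ≤ s := le_csSup hS.bddAbove hx
      have a2 : t ≤ y := csInf_le hT.bddBelow hy
      simp only at hxy
      simp only [mem_singleton_iff]
      linarith
    exact measure_mono_null this (by simp)
  calc volume S + volume T = volume ((fun x => x + t) '' S) + volume ((fun x => s + x) '' T) := by
        rw [v1, v2]
    _ = volume (((fun x => x + t) '' S) ∪ ((fun x => s + x) '' T)) :=
        (measure_union₀ m2.nullMeasurableSet hd).symm
    _ ≤ volume (S + T) := measure_mono (union_subset h1 h2)

theorem vol_add_measurable (S T : Set ℝ) (hS : MeasurableSet S) (hT : MeasurableSet T)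
    (hSn : S.Nonempty) (hTn : T.Nonempty) : volume S + volume T ≤ volume (S + T) := by
  obtain ⟨s0, hs0⟩ := hSn
  obtain ⟨t0, ht0⟩ := hTn
  have key : ∀ K ⊆ S, IsCompact K → ∀ L ⊆ T, IsCompact L →
      volume K + volume L ≤ volume (S + T) := by
    intro K hK hKc L hL hLc
    have := vol_add_compact (K ∪ {s0}) (L ∪ {t0}) (hKc.union isCompact_singleton)
      (hLc.union isCompact_singleton) ⟨s0, by simp⟩ ⟨t0, by simp⟩
    refine le_trans (add_le_add (measure_mono subset_union_left) (measure_mono subset_union_left))
      (this.trans (measure_mono (Set.add_subset_add ?_ ?_)))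
    · exact union_subset hK (by simpa using hs0)
    · exact union_subset hL (by simpa using ht0)
  have key2 : ∀ L ⊆ T, IsCompact L → volume S + volume L ≤ volume (S + T) := by
    intro L hL hLc
    have hfin : volume L ≠ ∞ := hLc.measure_lt_top.ne
    have h0 : volume L ≤ volume (S + T) := by
      simpa using key ∅ (empty_subset _) isCompact_empty L hL hLc
    have : volume S ≤ volume (S + T) - volume L := by
      rw [hS.measure_eq_iSup_isCompact]
      refine iSup₂_le fun K hK => iSup_le fun hKc => ?_
      exact ENNReal.le_sub_of_add_le_right hfin (key K hK hKc L hL hLc)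
    exact (add_le_add this le_rfl).trans (tsub_add_cancel_of_le h0).le
  by_cases hfin : volume S = ∞
  · have := key2 ∅ (empty_subset _) isCompact_empty
    simp only [measure_empty, add_zero] at this
    rw [hfin] at this
    rw [top_le_iff.mp this]
    exact le_top
  · have h0 : volume S ≤ volume (S + T) := by
      simpa using key2 ∅ (empty_subset _) isCompact_empty
    have : volume T ≤ volume (S + T) - volume S := by
      rw [hT.measure_eq_iSup_isCompact]
      refine iSup₂_le fun L hL => iSup_le fun hLc => ?_
      refine ENNReal.le_sub_of_add_le_left hfin (key2 L hL hLc)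
    calc volume S + volume T ≤ volume S + (volume (S + T) - volume S) := by gcongr
      _ = volume (S + T) := add_tsub_cancel_of_le h0

end HArea
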