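import Mathlib
import Pool.Agent.HArea.BM1

open MeasureTheory Set
open scoped Pointwise ENNReal

namespace HArea

/-- slice measure -/
noncomputable def sl (A : Set (ℝ × ℝ)) (x : ℝ) : ℝ := (volume (Prod.mk x ⁻¹' A)).toReal

theorem slice_compact {A : Set (ℝ × ℝ)} (hA : IsCompact A) (x : ℝ) :
    IsCompact (Prod.mk x ⁻¹' A) := by
  have hcl : IsClosed (Prod.mk x ⁻¹' A) := hA.isClosed.preimage (by fun_prop)
  refine (hA.image continuous_snd).of_isClosed_subset hcl ?_
  intro y hy
  exact ⟨(x, y), hy, rfl⟩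

theorem slice_ne_top {A : Set (ℝ × ℝ)} (hA : IsCompact A) (x : ℝ) :
    volume (Prod.mk x ⁻¹' A) ≠ ∞ := (slice_compact hA x).measure_lt_top.ne

theorem ofReal_sl {A : Set (ℝ × ℝ)} (hA : IsCompact A) (x : ℝ) :
    ENNReal.ofReal (sl A x) = volume (Prod.mk x ⁻¹' A) :=
  ENNReal.ofReal_toReal (slice_ne_top hA x)

theorem sl_nonneg (A : Set (ℝ × ℝ)) (x : ℝ) : 0 ≤ sl A x := ENNReal.toReal_nonneg

theorem sl_measurable {A : Set (ℝ × ℝ)} (hA : IsCompact A) : Measurable (sl A) :=
  (measurable_measure_prodMk_left hA.measurableSet).ennreal_toReal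

theorem sl_bdd {A : Set (ℝ × ℝ)} (hA : IsCompact A) : BddAbove (range (sl A)) := by
  refine ⟨(volume (Prod.snd '' A)).toReal, ?_⟩
  rintro _ ⟨x, rfl⟩
  refine ENNReal.toReal_mono (hA.image continuous_snd).measure_lt_top.ne (measure_mono ?_)
  intro y hy
  exact ⟨(x, y), hy, rfl⟩

theorem lint_sl {A : Set (ℝ × ℝ)} (hA : IsCompact A) :
    ∫⁻ x, ENNReal.ofReal (sl A x) = volume A := by
  rw [Measure.volume_eq_prod, Measure.prod_apply hA.measurableSet]
  exact lintegral_congr fun x => ofReal_sl hA x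

theorem lint_div {f : ℝ → ℝ} (hf : Measurable f) {M : ℝ} (hM : 0 < M) :
    ∫⁻ x, ENNReal.ofReal (f x / M) = ENNReal.ofReal (1 / M) * ∫⁻ x, ENNReal.ofReal (f x) := by
  rw [← lintegral_const_mul _ (by fun_prop)]
  refine lintegral_congr fun x => ?_
  rw [← ENNReal.ofReal_mul (by positivity)]
  congr 1
  ring

theorem layer {f : ℝ → ℝ} (hf : Measurable f) (hnn : ∀ x, 0 ≤ f x) {M : ℝ} (hM : 0 < M) :
    ∫⁻ x, ENNReal.ofReal (f x / M) = ∫⁻ t in Ioi 0, volume {x | t < f x / M} := by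
  refine lintegral_eq_lintegral_meas_lt volume ?_ ?_
  · exact Filter.Eventually.of_forall fun x => div_nonneg (hnn x) hM.le
  · exact (hf.div_const M).aemeasurable

theorem layer_ge {f : ℝ → ℝ} (hf : Measurable f) (hnn : ∀ x, 0 ≤ f x) {M : ℝ} (hM : 0 < M) :
    ∫⁻ t in Ioo 0 1, volume {x | t < f x / M} ≤ ∫⁻ x, ENNReal.ofReal (f x / M) := by
  rw [layer hf hnn hM]
  exact lintegral_mono_set Ioo_subset_Ioi_self

theorem layer_le {f : ℝ → ℝ} (hf : Measurable f) (hnn : ∀ x, 0 ≤ f x) {M : ℝ} (hM : 0 < M)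
    (hle : ∀ x, f x ≤ M) :
    ∫⁻ x, ENNReal.ofReal (f x / M) ≤ ∫⁻ t in Ioo 0 1, volume {x | t < f x / M} := by
  rw [layer hf hnn hM]
  have hsplit : Ioi (0 : ℝ) = Ioo 0 1 ∪ Ici 1 := by
    ext t
    simp only [mem_Ioi, mem_union, mem_Ioo, mem_Ici]
    constructor
    · intro h
      rcases lt_or_ge t 1 with h1 | h1
      · exact Or.inl ⟨h, h1⟩
      · exact Or.inr h1
    · rintro (h | h)
      · exact h.1
      · linarith
  rw [hsplit]
  refine (lintegral_union_le _ _ _).trans ?_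
  have : ∫⁻ t in Ici (1 : ℝ), volume {x | t < f x / M} = 0 := by
    rw [setLIntegral_congr_fun (g := fun _ => 0) measurableSet_Ici]
    · simp
    · intro t ht
      have : {x | t < f x / M} = ∅ := by
        ext x
        simp only [mem_ofPred_eq, mem_empty_iff_false, iff_false, not_lt]
        exact ((div_le_one hM).mpr (hle x)).trans ht
      simp only [this, measure_empty]
  rw [this, add_zero]

/-- the midpoint set -/
def mid (A B : Set (ℝ × ℝ)) : Set (ℝ × ℝ) :=
  (fun p : (ℝ × ℝ) × (ℝ × ℝ) => (1 / 2 : ℝ) • (p.1 + p.2)) '' (A ×ˢ B)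

theorem mid_compact {A B : Set (ℝ × ℝ)} (hA : IsCompact A) (hB : IsCompact B) :
    IsCompact (mid A B) := (hA.prod hB).image (by fun_prop)

theorem sl_mid {A B : Set (ℝ × ℝ)} (hA : IsCompact A) (hB : IsCompact B) (x y : ℝ)
    (hx : 0 < sl A x) (hy : 0 < sl B y) :
    (sl A x + sl B y) / 2 ≤ sl (mid A B) ((1 / 2) * (x + y)) := by
  have nx : (Prod.mk x ⁻¹' A).Nonempty := by
    by_contra hne
    rw [Set.not_nonempty_iff_eq_empty] at hne
    simp [sl, hne] at hx
  have ny : (Prod.mk y ⁻¹' B).Nonempty := by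
    by_contra hne
    rw [Set.not_nonempty_iff_eq_empty] at hne
    simp [sl, hne] at hy
  have h1 := vol_add_compact _ _ (slice_compact hA x) (slice_compact hB y) nx ny
  have h2 : (1 / 2 : ℝ) • (Prod.mk x ⁻¹' A + Prod.mk y ⁻¹' B) ⊆
      Prod.mk ((1 / 2) * (x + y)) ⁻¹' (mid A B) := by
    rintro _ ⟨_, ⟨u, hu, v, hv, rfl⟩, rfl⟩
    refine ⟨((x, u), (y, v)), ⟨hu, hv⟩, ?_⟩
    simp
  have h3 := measure_mono (μ := (volume : Measure ℝ)) h2
  rw [Measure.addHaar_smul] at h3
  simp only [Module.finrank_self, pow_one] at h3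
  have h4 : ENNReal.ofReal |(1 / 2 : ℝ)| * (volume (Prod.mk x ⁻¹' A) + volume (Prod.mk y ⁻¹' B)) ≤
      volume (Prod.mk ((1 / 2) * (x + y)) ⁻¹' (mid A B)) := le_trans (by gcongr) h3
  have h5 := ENNReal.toReal_mono (slice_ne_top (mid_compact hA hB) _) h4
  rw [ENNReal.toReal_mul, ENNReal.toReal_add (slice_ne_top hA x) (slice_ne_top hB y),
    ENNReal.toReal_ofReal (abs_nonneg _), abs_of_pos (by norm_num)] at h5
  unfold sl
  linarith

theorem sl_pos_of_vol {A : Set (ℝ × ℝ)} (hA : IsCompact A) (h : volume A ≠ 0) :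
    0 < ⨆ x, sl A x := by
  by_contra hne
  push Not at hne
  apply h
  rw [← lint_sl hA]
  have : ∀ x, sl A x = 0 := by
    intro x
    have := le_ciSup (sl_bdd hA) x
    exact le_antisymm (this.trans hne) (sl_nonneg A x)
  simp [this]

theorem bm_prod (A B : Set (ℝ × ℝ)) (hA : IsCompact A) (hB : IsCompact B)
    (h : volume A = volume B) : volume A ≤ volume (mid A B) := by
  by_cases h0 : volume A = 0
  · rw [h0]; exact zero_le
  have h0' : volume B ≠ 0 := h ▸ h0
  set Ma := ⨆ x, sl A x with hMa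
  set Mb := ⨆ x, sl B x with hMb
  have ha : 0 < Ma := sl_pos_of_vol hA h0
  have hb : 0 < Mb := sl_pos_of_vol hB h0'
  set m := (Ma + Mb) / 2 with hm
  have hmpos : 0 < m := by positivity
  have hC := mid_compact hA hB
  have lea : ∀ x, sl A x ≤ Ma := fun x => le_ciSup (sl_bdd hA) x
  have leb : ∀ x, sl B x ≤ Mb := fun x => le_ciSup (sl_bdd hB) x
  -- pointwise inequality of the super-level sets
  have hpt : ∀ t ∈ Ioo (0 : ℝ) 1,
      ENNReal.ofReal (1 / 2) * (volume {x | t < sl A x / Ma} + volume {x | t < sl B x / Mb}) ≤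
        volume {x | t < sl (mid A B) x / m} := by
    intro t ht
    have mA : MeasurableSet {x | t < sl A x / Ma} :=
      measurableSet_lt measurable_const ((sl_measurable hA).div_const _)
    have mB : MeasurableSet {x | t < sl B x / Mb} :=
      measurableSet_lt measurable_const ((sl_measurable hB).div_const _)
    have nA : {x | t < sl A x / Ma}.Nonempty := by
      have : t * Ma < Ma := by nlinarith [ht.2]
      obtain ⟨x, hx⟩ := exists_lt_of_lt_ciSup this
      exact ⟨x, by simpa [lt_div_iff₀ ha] using hx⟩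
    have nB : {x | t < sl B x / Mb}.Nonempty := by
      have : t * Mb < Mb := by nlinarith [ht.2]
      obtain ⟨x, hx⟩ := exists_lt_of_lt_ciSup this
      exact ⟨x, by simpa [lt_div_iff₀ hb] using hx⟩
    have h1 := vol_add_measurable _ _ mA mB nA nB
    have h2 : (1 / 2 : ℝ) • ({x | t < sl A x / Ma} + {x | t < sl B x / Mb}) ⊆
        {x | t < sl (mid A B) x / m} := by
      rintro _ ⟨_, ⟨u, hu, v, hv, rfl⟩, rfl⟩
      simp only [mem_ofPred_eq] at hu hv ⊢
      rw [lt_div_iff₀ ha] at hu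
      rw [lt_div_iff₀ hb] at hv
      rw [lt_div_iff₀ hmpos]
      have p1 : 0 < sl A u := lt_trans (mul_pos ht.1 ha) hu
      have p2 : 0 < sl B v := lt_trans (mul_pos ht.1 hb) hv
      have := sl_mid hA hB u v p1 p2
      simp only [smul_eq_mul]
      have e : t * m = (t * Ma + t * Mb) / 2 := by rw [hm]; ring
      rw [e]
      linarith
    have h3 := measure_mono (μ := (volume : Measure ℝ)) h2
    rw [Measure.addHaar_smul] at h3
    simp only [Module.finrank_self, pow_one] at h3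
    rw [abs_of_pos (by norm_num)] at h3
    exact le_trans (by gcongr) h3
  have hsum : ENNReal.ofReal (1 / 2) *
      ((∫⁻ x, ENNReal.ofReal (sl A x / Ma)) + ∫⁻ x, ENNReal.ofReal (sl B x / Mb)) ≤
      ∫⁻ x, ENNReal.ofReal (sl (mid A B) x / m) := by
    have meas : ∀ f : ℝ → ℝ, Measurable fun t : ℝ => volume {x | t < f x} := by
      intro f
      apply Antitone.measurable
      intro s t hst
      exact measure_mono fun x (hx : t < f x) => lt_of_le_of_lt hst hx
    calc ENNReal.ofReal (1 / 2) *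
        ((∫⁻ x, ENNReal.ofReal (sl A x / Ma)) + ∫⁻ x, ENNReal.ofReal (sl B x / Mb))
        ≤ ENNReal.ofReal (1 / 2) *
        ((∫⁻ t in Ioo (0 : ℝ) 1, volume {x | t < sl A x / Ma}) +
          ∫⁻ t in Ioo (0 : ℝ) 1, volume {x | t < sl B x / Mb}) := by
          exact mul_le_mul' le_rfl (add_le_add
            (layer_le (sl_measurable hA) (sl_nonneg A) ha lea)
            (layer_le (sl_measurable hB) (sl_nonneg B) hb leb))
      _ = ∫⁻ t in Ioo (0 : ℝ) 1, ENNReal.ofReal (1 / 2) *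
          (volume {x | t < sl A x / Ma} + volume {x | t < sl B x / Mb}) := by
          rw [← lintegral_add_left (meas fun x => sl A x / Ma)]
          exact (lintegral_const_mul (ENNReal.ofReal (1 / 2))
            (f := fun t : ℝ => volume {x | t < sl A x / Ma} + volume {x | t < sl B x / Mb})
            ((meas fun x => sl A x / Ma).add (meas fun x => sl B x / Mb))).symm
      _ ≤ ∫⁻ t in Ioo (0 : ℝ) 1, volume {x | t < sl (mid A B) x / m} :=
          setLIntegral_mono' measurableSet_Ioo hpt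
      _ ≤ ∫⁻ x, ENNReal.ofReal (sl (mid A B) x / m) :=
          layer_ge (sl_measurable hC) (sl_nonneg _) hmpos
  rw [lint_div (sl_measurable hA) ha, lint_div (sl_measurable hB) hb,
    lint_div (sl_measurable hC) hmpos, lint_sl hA, lint_sl hB, lint_sl hC, ← h] at hsum
  have fA : volume A ≠ ∞ := hA.measure_lt_top.ne
  have fC : volume (mid A B) ≠ ∞ := hC.measure_lt_top.ne
  have hr := ENNReal.toReal_mono (ENNReal.mul_ne_top ENNReal.ofReal_ne_top fC) hsum
  rw [ENNReal.toReal_mul, ENNReal.toReal_mul, ENNReal.toReal_add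
    (ENNReal.mul_ne_top ENNReal.ofReal_ne_top fA) (ENNReal.mul_ne_top ENNReal.ofReal_ne_top fA),
    ENNReal.toReal_mul, ENNReal.toReal_mul,
    ENNReal.toReal_ofReal (by positivity), ENNReal.toReal_ofReal (by positivity),
    ENNReal.toReal_ofReal (by positivity), ENNReal.toReal_ofReal (by positivity)] at hr
  rw [← ENNReal.toReal_le_toReal fA fC]
  set V := (volume A).toReal with hV
  set W := (volume (mid A B)).toReal with hW
  have hVn : 0 ≤ V := ENNReal.toReal_nonneg
  have e1 : 1 / 2 * (1 / Ma * V + 1 / Mb * V) = (Ma + Mb) / (2 * (Ma * Mb)) * V := by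
    field_simp
    ring
  have e2 : 1 / m * W = 2 / (Ma + Mb) * W := by
    rw [hm]; field_simp
  rw [e1, e2] at hr
  have hs : 0 < Ma + Mb := by positivity
  have hp : 0 < Ma * Mb := by positivity
  have h6 : (Ma + Mb) ^ 2 * V ≤ 4 * (Ma * Mb) * W := by
    have := mul_le_mul_of_nonneg_left hr (show 0 ≤ (Ma + Mb) * (2 * (Ma * Mb)) by positivity)
    have l : (Ma + Mb) * (2 * (Ma * Mb)) * ((Ma + Mb) / (2 * (Ma * Mb)) * V) =
      (Ma + Mb) ^ 2 * V := by field_simp
    have r : (Ma + Mb) * (2 * (Ma * Mb)) * (2 / (Ma + Mb) * W) = 4 * (Ma * Mb) * W := by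
      field_simp; ring
    rw [l, r] at this
    exact this
  have h7 : 4 * (Ma * Mb) * V ≤ (Ma + Mb) ^ 2 * V := by
    apply mul_le_mul_of_nonneg_right _ hVn
    nlinarith [sq_nonneg (Ma - Mb)]
  have h8 : 4 * (Ma * Mb) * V ≤ 4 * (Ma * Mb) * W := h7.trans h6
  exact le_of_mul_le_mul_left h8 (by positivity)

end HArea
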