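import Mathlib

open MeasureTheory Complex Set

namespace HArea

/-- integration over one period -/
noncomputable abbrev μ₀ : Measure ℝ := volume.restrict (Ioc (0:ℝ) (2 * Real.pi))

theorem two_pi_pos' : (0:ℝ) < 2 * Real.pi := by positivity

theorem int_eq_interval {E : Type*} [NormedAddCommGroup E] [NormedSpace ℝ E] (g : ℝ → E) :
    ∫ θ, g θ ∂μ₀ = ∫ θ in (0:ℝ)..(2 * Real.pi), g θ := by
  rw [intervalIntegral.integral_of_le two_pi_pos'.le]

theorem periodic_shift {E : Type*} [NormedAddCommGroup E] [NormedSpace ℝ E] (g : ℝ → E)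
    (hg : Function.Periodic g (2 * Real.pi)) (φ : ℝ) :
    ∫ θ, g (θ - φ) ∂μ₀ = ∫ θ, g θ ∂μ₀ := by
  rw [int_eq_interval, int_eq_interval, intervalIntegral.integral_comp_sub_right]
  have := hg.intervalIntegral_add_eq (0 - φ) 0
  rw [show 2 * Real.pi - φ = (0 - φ) + 2 * Real.pi by ring, this]
  simp

theorem periodic_shift' {E : Type*} [NormedAddCommGroup E] [NormedSpace ℝ E] (g : ℝ → E)
    (hg : Function.Periodic g (2 * Real.pi)) (φ : ℝ) :
    ∫ θ, g (φ - θ) ∂μ₀ = ∫ θ, g θ ∂μ₀ := by
  rw [int_eq_interval, int_eq_interval, intervalIntegral.integral_comp_sub_left]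
  have := hg.intervalIntegral_add_eq (φ - 2 * Real.pi) 0
  rw [show φ - 0 = (φ - 2 * Real.pi) + 2 * Real.pi by ring, this]
  simp

instance : IsFiniteMeasure μ₀ := by
  unfold μ₀; infer_instance

theorem μ₀_univ : μ₀.real univ = 2 * Real.pi := by
  simp [μ₀, Real.pi_pos.le]

/-- indicator of `s ≤ x` -/
noncomputable def ind (s x : ℝ) : ℝ := if s ≤ x then 1 else 0

theorem ind_nonneg (s x : ℝ) : 0 ≤ ind s x := by unfold ind; split_ifs <;> norm_num

theorem ind_le_one (s x : ℝ) : ind s x ≤ 1 := by unfold ind; split_ifs <;> norm_num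

theorem ind_or (s x : ℝ) : ind s x = 0 ∨ ind s x = 1 := by unfold ind; split_ifs <;> simp

theorem measurable_ind : Measurable (fun p : ℝ × ℝ => ind p.1 p.2) := by
  unfold ind
  exact Measurable.ite (measurableSet_le measurable_fst measurable_snd) measurable_const
    measurable_const

noncomputable def Bf (s : ℝ) : ℝ := ∫ θ, max (Real.cos θ - s) 0 ∂μ₀
noncomputable def mf (s : ℝ) : ℝ := ∫ θ, ind s (Real.cos θ) ∂μ₀
noncomputable def Cf (s : ℝ) : ℝ := ∫ θ, ind s (Real.cos θ) * Real.cos θ ∂μ₀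

theorem integrable_of_bdd {E : Type*} [NormedAddCommGroup E] (ν : Measure ℝ) [IsFiniteMeasure ν]
    (g : ℝ → E) (hg : AEStronglyMeasurable g ν) (C : ℝ) (h : ∀ x, ‖g x‖ ≤ C) : Integrable g ν :=
  Integrable.of_bound hg C (Filter.Eventually.of_forall h)

theorem integrable_ind_cos (s : ℝ) : Integrable (fun θ => ind s (Real.cos θ)) μ₀ := by
  apply integrable_of_bdd _ _ _ 1
  · intro x; rw [Real.norm_eq_abs, abs_of_nonneg (ind_nonneg _ _)]; exact ind_le_one _ _
  · exact (measurable_ind.comp (measurable_const.prodMk Real.measurable_cos)).aestronglyMeasurable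

theorem integrable_cos_μ₀ : Integrable Real.cos μ₀ := by
  apply integrable_of_bdd _ _ _ 1
  · intro x; rw [Real.norm_eq_abs]; exact Real.abs_cos_le_one x
  · exact Real.measurable_cos.aestronglyMeasurable

theorem Bf_add (s : ℝ) : Bf s + s * mf s = Cf s := by
  unfold Bf mf Cf
  rw [← integral_const_mul, ← integral_add]
  · apply integral_congr_ae
    filter_upwards with θ
    unfold ind
    split_ifs with h
    · rw [max_eq_left (by linarith)]; ring
    · rw [max_eq_right (by linarith)]; ring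
  · exact ((integrable_cos_μ₀.sub (integrable_const s)).sup (integrable_const 0))
  · exact (integrable_ind_cos s).const_mul s

section bathtub

variable (J : ℝ → ℝ) (hJ : Measurable J) (h01 : ∀ θ, J θ = 0 ∨ J θ = 1)
include hJ h01

omit hJ in
theorem J_bound (θ : ℝ) : ‖J θ‖ ≤ 1 := by
  rcases h01 θ with h | h <;> simp [h]

theorem integrable_J : Integrable J μ₀ :=
  integrable_of_bdd _ _ hJ.aestronglyMeasurable 1 (J_bound J h01)

theorem integrable_Jexp : Integrable (fun θ => (J θ : ℂ) * Complex.exp (θ * I)) μ₀ := by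
  apply integrable_of_bdd _ _ _ 1
  · intro θ
    rw [norm_mul, Complex.norm_exp_ofReal_mul_I, mul_one, Complex.norm_real]
    exact J_bound J h01 θ
  · apply Measurable.aestronglyMeasurable
    fun_prop

theorem integrable_Jcos (φ : ℝ) : Integrable (fun θ => J θ * Real.cos (θ - φ)) μ₀ := by
  apply integrable_of_bdd _ _ _ 1
  · intro θ
    rw [norm_mul]
    have h1 := J_bound J h01 θ
    have h2 : ‖Real.cos (θ - φ)‖ ≤ 1 := by rw [Real.norm_eq_abs]; exact Real.abs_cos_le_one _
    nlinarith [norm_nonneg (J θ), norm_nonneg (Real.cos (θ - φ))]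
  · apply Measurable.aestronglyMeasurable
    fun_prop

theorem re_int (φ : ℝ) :
    ((∫ θ, (J θ : ℂ) * Complex.exp (θ * I) ∂μ₀) * Complex.exp (-(φ * I))).re
      = ∫ θ, J θ * Real.cos (θ - φ) ∂μ₀ := by
  rw [← integral_mul_const]
  have h : Integrable (fun θ => (J θ : ℂ) * Complex.exp (θ * I) * Complex.exp (-(φ * I))) μ₀ :=
    (integrable_Jexp J hJ h01).mul_const _
  have := integral_re h
  simp only [RCLike.re_eq_complex_re] at this
  rw [← this]
  apply integral_congr_ae
  filter_upwards with θ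
  rw [mul_assoc, ← Complex.exp_add, show (θ : ℂ) * I + -(φ * I) = ((θ - φ : ℝ) : ℂ) * I by
    push_cast; ring, Complex.re_ofReal_mul, Complex.exp_ofReal_mul_I_re]

theorem exists_phase : ∃ φ : ℝ, ‖∫ θ, (J θ : ℂ) * Complex.exp (θ * I) ∂μ₀‖
      = ∫ θ, J θ * Real.cos (θ - φ) ∂μ₀ := by
  set Ψ := ∫ θ, (J θ : ℂ) * Complex.exp (θ * I) ∂μ₀ with hΨ
  refine ⟨Complex.arg Ψ, ?_⟩
  rw [← re_int J hJ h01]
  have h := Complex.norm_mul_exp_arg_mul_I Ψ
  rw [← hΨ]
  conv_rhs => rw [← h]
  rw [mul_assoc, ← Complex.exp_add]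
  simp

omit hJ h01 in
theorem maxcos_int (φ s : ℝ) : ∫ θ, max (Real.cos (θ - φ) - s) 0 ∂μ₀ = Bf s := by
  unfold Bf
  exact periodic_shift (fun θ => max (Real.cos θ - s) 0)
    (fun θ => by simp [Real.cos_add_two_pi]) φ

omit hJ h01 in
theorem integrable_maxcos (φ s : ℝ) :
    Integrable (fun θ => max (Real.cos (θ - φ) - s) 0) μ₀ := by
  have : Integrable (fun θ => Real.cos (θ - φ)) μ₀ := by
    apply integrable_of_bdd _ _ _ 1
    · intro x; rw [Real.norm_eq_abs]; exact Real.abs_cos_le_one _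
    · exact (by fun_prop : Measurable (fun θ => Real.cos (θ - φ))).aestronglyMeasurable
  exact ((this.sub (integrable_const s)).sup (integrable_const 0))

theorem bathtub (s : ℝ) : ‖∫ θ, (J θ : ℂ) * Complex.exp (θ * I) ∂μ₀‖
      ≤ Bf s + s * ∫ θ, J θ ∂μ₀ := by
  obtain ⟨φ, hφ⟩ := exists_phase J hJ h01
  rw [hφ, ← maxcos_int φ s, ← integral_const_mul, ← integral_add
    (integrable_maxcos φ s) ((integrable_J J hJ h01).const_mul s)]
  apply integral_mono (integrable_Jcos J hJ h01 φ)
    ((integrable_maxcos φ s).add ((integrable_J J hJ h01).const_mul s))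
  intro θ
  simp only [Pi.add_apply]
  rcases h01 θ with h | h
  · rw [h]; simp
  · rw [h]
    have := le_max_left (Real.cos (θ - φ) - s) 0
    linarith

theorem bathtub_eq (s : ℝ) (hs : ‖∫ θ, (J θ : ℂ) * Complex.exp (θ * I) ∂μ₀‖
      = Bf s + s * ∫ θ, J θ ∂μ₀) : ‖∫ θ, (J θ : ℂ) * Complex.exp (θ * I) ∂μ₀‖ = Cf s := by
  obtain ⟨φ, hφ⟩ := exists_phase J hJ h01
  have h1 : ∫ θ, (max (Real.cos (θ - φ) - s) 0 + s * J θ - J θ * Real.cos (θ - φ)) ∂μ₀ = 0 := by
    have e1 := integral_sub ((integrable_maxcos φ s).add ((integrable_J J hJ h01).const_mul s))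
      (integrable_Jcos J hJ h01 φ)
    have e2 := integral_add (integrable_maxcos φ s) ((integrable_J J hJ h01).const_mul s)
    simp only [Pi.add_apply] at e1
    rw [e1, e2, maxcos_int, integral_const_mul, ← hφ, hs]
    ring
  have h2 : (fun θ => (max (Real.cos (θ - φ) - s) 0 + s * J θ - J θ * Real.cos (θ - φ)))
      =ᵐ[μ₀] 0 := by
    rw [← integral_eq_zero_iff_of_nonneg]
    · exact h1
    · intro θ
      simp only [Pi.zero_apply]
      rcases h01 θ with h | h
      · rw [h]; simp
      · rw [h]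
        have := le_max_left (Real.cos (θ - φ) - s) 0
        linarith
    · exact ((integrable_maxcos φ s).add ((integrable_J J hJ h01).const_mul s)).sub
        (integrable_Jcos J hJ h01 φ)
  have h3 : ∀ᵐ θ ∂μ₀, Real.cos (θ - φ) ≠ s := by
    apply ae_restrict_of_ae
    have hc : Set.Countable {θ : ℝ | Real.cos (θ - φ) = s} := by
      by_cases he : ∃ θ₀ : ℝ, Real.cos (θ₀ - φ) = s
      · obtain ⟨θ₀, h0⟩ := he
        apply Set.Countable.mono (s₂ := (Set.range (fun k : ℤ => 2 * k * Real.pi + (θ₀ - φ) + φ)) ∪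
          (Set.range (fun k : ℤ => 2 * k * Real.pi - (θ₀ - φ) + φ)))
        · intro θ hθ
          simp only [mem_ofPred_eq] at hθ
          rw [← h0] at hθ
          obtain ⟨k, hk⟩ := Real.cos_eq_cos_iff.1 hθ.symm
          rcases hk with hk | hk
          · left; exact ⟨k, by simp only; linarith⟩
          · right; exact ⟨k, by simp only; linarith⟩
        · exact (Set.countable_range _).union (Set.countable_range _)
      · convert Set.countable_empty
        ext θ; simp only [mem_ofPred_eq, mem_empty_iff_false, iff_false]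
        intro h; exact he ⟨θ, h⟩
    rw [ae_iff]
    simpa using hc.measure_zero volume
  rw [hφ]
  unfold Cf
  rw [← periodic_shift (fun θ => ind s (Real.cos θ) * Real.cos θ)
    (fun θ => by simp [Real.cos_add_two_pi]) φ]
  apply integral_congr_ae
  filter_upwards [h2, h3] with θ ha hb
  simp only [Pi.zero_apply] at ha
  rcases lt_or_gt_of_ne hb with hlt | hgt
  · rw [max_eq_right (by linarith)] at ha
    have : J θ = 0 := by
      rcases h01 θ with h | h
      · exact h
      · rw [h] at ha; linarith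
    rw [this]; unfold ind; rw [if_neg (by linarith)]
  · rw [max_eq_left (by linarith)] at ha
    have : J θ = 1 := by
      rcases h01 θ with h | h
      · rw [h] at ha; linarith
      · exact h
    rw [this]; unfold ind; rw [if_pos (by linarith)]

end bathtub

end HArea
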