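import Mathlib

open Complex Set

namespace HArea

theorem nsq (v : ℂ) : ‖v‖ ^ 2 = v.re ^ 2 + v.im ^ 2 := by
  rw [← Complex.normSq_eq_norm_sq, Complex.normSq_apply]; ring

/-- A map of an open interval of length `2π` to the plane having the chord lengths of the unit
circle parametrised by angle is a rotation or a reflection of the unit circle. -/
theorem isometry_circle (G : ℝ → ℂ)
    (hG : ∀ a ∈ Ioo 0 (2 * Real.pi), ∀ b ∈ Ioo 0 (2 * Real.pi),
      ‖G b - G a‖ ^ 2 = 2 - 2 * Real.cos (b - a)) :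
    ∃ C A : ℂ, ‖A‖ = 1 ∧
      ((∀ t ∈ Ioo 0 (2 * Real.pi), G t = C + A * Complex.exp (t * I)) ∨
       (∀ t ∈ Ioo 0 (2 * Real.pi), G t = C + A * Complex.exp (-(t * I)))) := by
  have hpi := Real.pi_pos
  set t₀ : ℝ := Real.pi / 2 with ht₀
  have m0 : t₀ ∈ Ioo 0 (2 * Real.pi) := ⟨by linarith, by linarith⟩
  have m1 : Real.pi ∈ Ioo 0 (2 * Real.pi) := ⟨by linarith, by linarith⟩
  have m2 : 3 * Real.pi / 2 ∈ Ioo 0 (2 * Real.pi) := ⟨by linarith, by linarith⟩
  set P := G Real.pi - G t₀ with hP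
  set Q := G (3 * Real.pi / 2) - G t₀ with hQ
  set A := -Q / 2 with hA
  set B := P + A with hB
  have hAre : A.re = -Q.re / 2 := by
    rw [hA, show -Q / 2 = ((1/2 : ℝ) : ℂ) * (-Q) by push_cast; ring, Complex.re_ofReal_mul,
      Complex.neg_re]; ring
  have hAim : A.im = -Q.im / 2 := by
    rw [hA, show -Q / 2 = ((1/2 : ℝ) : ℂ) * (-Q) by push_cast; ring, Complex.im_ofReal_mul,
      Complex.neg_im]; ring
  have hBre : B.re = P.re + A.re := by rw [hB, Complex.add_re]
  have hBim : B.im = P.im + A.im := by rw [hB, Complex.add_im]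
  have nP : P.re ^ 2 + P.im ^ 2 = 2 := by
    rw [← nsq, hP, hG _ m0 _ m1, ht₀, show Real.pi - Real.pi / 2 = Real.pi / 2 by ring,
      Real.cos_pi_div_two]; ring
  have nQ : Q.re ^ 2 + Q.im ^ 2 = 4 := by
    rw [← nsq, hQ, hG _ m0 _ m2, ht₀, show 3 * Real.pi / 2 - Real.pi / 2 = Real.pi by ring,
      Real.cos_pi]; ring
  have nPQ : (Q.re - P.re) ^ 2 + (Q.im - P.im) ^ 2 = 2 := by
    have e : Q - P = G (3 * Real.pi / 2) - G Real.pi := by rw [hP, hQ]; ring
    rw [← Complex.sub_re, ← Complex.sub_im, ← nsq, e, hG _ m1 _ m2,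
      show 3 * Real.pi / 2 - Real.pi = Real.pi / 2 by ring, Real.cos_pi_div_two]; ring
  have nA : A.re ^ 2 + A.im ^ 2 = 1 := by rw [hAre, hAim]; linarith
  have nAB : A.re * B.re + A.im * B.im = 0 := by
    rw [hBre, hBim, hAre, hAim]; linear_combination (-1/4) * nP + (1/4) * nPQ
  have nB : B.re ^ 2 + B.im ^ 2 = 1 := by
    rw [hBre, hBim, hAre, hAim]; linear_combination (1/2) * nP + (1/2) * nPQ - (1/4) * nQ
  have key : ∀ t ∈ Ioo 0 (2 * Real.pi),
      (G t - G t₀).re = A.re * (Real.cos (t - t₀) - 1) + B.re * Real.sin (t - t₀) ∧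
      (G t - G t₀).im = A.im * (Real.cos (t - t₀) - 1) + B.im * Real.sin (t - t₀) := by
    intro t ht
    set X := G t - G t₀ with hX
    set c := Real.cos (t - t₀) with hc
    set s := Real.sin (t - t₀) with hs
    have hcs : s ^ 2 + c ^ 2 = 1 := Real.sin_sq_add_cos_sq _
    have nX : X.re ^ 2 + X.im ^ 2 = 2 - 2 * c := by
      rw [← nsq, hX, hG _ m0 _ ht]
    have nXQ : (X.re - Q.re) ^ 2 + (X.im - Q.im) ^ 2 = 2 + 2 * c := by
      have e : X - Q = G t - G (3 * Real.pi / 2) := by rw [hX, hQ]; ring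
      rw [← Complex.sub_re, ← Complex.sub_im, ← nsq, e, hG _ m2 _ ht,
        show t - 3 * Real.pi / 2 = (t - t₀) - Real.pi by rw [ht₀]; ring, Real.cos_sub_pi]; ring
    have nXP : (X.re - P.re) ^ 2 + (X.im - P.im) ^ 2 = 2 - 2 * s := by
      have e : X - P = G t - G Real.pi := by rw [hX, hP]; ring
      rw [← Complex.sub_re, ← Complex.sub_im, ← nsq, e, hG _ m1 _ ht,
        show t - Real.pi = (t - t₀) - Real.pi / 2 by rw [ht₀]; ring, Real.cos_sub_pi_div_two]
    have iXA : X.re * A.re + X.im * A.im = c - 1 := by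
      rw [hAre, hAim]; linear_combination (-1/4) * nX + (-1/4) * nQ + (1/4) * nXQ
    have iXB : X.re * B.re + X.im * B.im = s := by
      rw [hBre, hBim]; linear_combination (1/2) * nX + (1/2) * nP - (1/2) * nXP + iXA
    have hz : (X.re - (A.re * (c - 1) + B.re * s)) ^ 2 +
        (X.im - (A.im * (c - 1) + B.im * s)) ^ 2 = 0 := by
      have : (X.re - (A.re * (c - 1) + B.re * s)) ^ 2 +
          (X.im - (A.im * (c - 1) + B.im * s)) ^ 2
          = (X.re ^ 2 + X.im ^ 2) + (c - 1) ^ 2 * (A.re ^ 2 + A.im ^ 2)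
            + s ^ 2 * (B.re ^ 2 + B.im ^ 2) - 2 * (c - 1) * (X.re * A.re + X.im * A.im)
            - 2 * s * (X.re * B.re + X.im * B.im)
            + 2 * (c - 1) * s * (A.re * B.re + A.im * B.im) := by ring
      rw [this, nX, nA, nB, iXA, iXB, nAB]
      linear_combination (-1 : ℝ) * hcs
    have hz1 : (X.re - (A.re * (c - 1) + B.re * s)) ^ 2 = 0 :=
      le_antisymm (by linarith [sq_nonneg (X.im - (A.im * (c - 1) + B.im * s))]) (sq_nonneg _)
    have hz2 : (X.im - (A.im * (c - 1) + B.im * s)) ^ 2 = 0 :=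
      le_antisymm (by linarith [sq_nonneg (X.re - (A.re * (c - 1) + B.re * s))]) (sq_nonneg _)
    exact ⟨sub_eq_zero.1 (pow_eq_zero_iff two_ne_zero |>.1 hz1),
      sub_eq_zero.1 (pow_eq_zero_iff two_ne_zero |>.1 hz2)⟩
  -- B = ± i A
  set l := A.re * B.im - A.im * B.re with hl
  have hl2 : l ^ 2 = 1 := by
    have : l ^ 2 = (A.re ^ 2 + A.im ^ 2) * (B.re ^ 2 + B.im ^ 2)
      - (A.re * B.re + A.im * B.im) ^ 2 := by rw [hl]; ring
    rw [this, nA, nB, nAB]; ring
  have hB1 : B.re = -l * A.im := by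
    have : -l * A.im = B.re * (A.re ^ 2 + A.im ^ 2)
      - A.re * (A.re * B.re + A.im * B.im) := by rw [hl]; ring
    rw [this, nA, nAB]; ring
  have hB2 : B.im = l * A.re := by
    have : l * A.re = B.im * (A.re ^ 2 + A.im ^ 2)
      - A.im * (A.re * B.re + A.im * B.im) := by rw [hl]; ring
    rw [this, nA, nAB]; ring
  have hAn : ‖A‖ = 1 := by
    have : ‖A‖ ^ 2 = 1 := by rw [nsq, nA]
    nlinarith [norm_nonneg A]
  have hll : l = 1 ∨ l = -1 := by
    have : (l - 1) * (l + 1) = 0 := by nlinarith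
    rcases mul_eq_zero.1 this with h | h
    · left; linarith
    · right; linarith
  rcases hll with h | h
  · refine ⟨G t₀ - A, A * Complex.exp (-(t₀ * I)), ?_, Or.inl ?_⟩
    · rw [norm_mul, hAn, show (-(t₀ * I) : ℂ) = ((-t₀ : ℝ) : ℂ) * I by push_cast; ring,
        Complex.norm_exp_ofReal_mul_I, one_mul]
    · intro t ht
      obtain ⟨k1, k2⟩ := key t ht
      rw [mul_assoc, ← Complex.exp_add, show (-(t₀ * I) + t * I : ℂ) = ((t - t₀ : ℝ) : ℂ) * I by
        push_cast; ring]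
      have : G t - G t₀ = A * (Complex.exp (((t - t₀ : ℝ) : ℂ) * I) - 1) := by
        apply Complex.ext
        · rw [k1, Complex.mul_re, Complex.sub_re, Complex.sub_im, Complex.exp_ofReal_mul_I_re,
            Complex.exp_ofReal_mul_I_im, hB1, h]
          simp; ring
        · rw [k2, Complex.mul_im, Complex.sub_re, Complex.sub_im, Complex.exp_ofReal_mul_I_re,
            Complex.exp_ofReal_mul_I_im, hB2, h]
          simp; ring
      linear_combination this
  · refine ⟨G t₀ - A, A * Complex.exp (t₀ * I), ?_, Or.inr ?_⟩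
    · rw [norm_mul, hAn, Complex.norm_exp_ofReal_mul_I, one_mul]
    · intro t ht
      obtain ⟨k1, k2⟩ := key t ht
      rw [mul_assoc, ← Complex.exp_add, show (t₀ * I + -(t * I) : ℂ) = ((-(t - t₀) : ℝ) : ℂ) * I by
        push_cast; ring]
      have : G t - G t₀ = A * (Complex.exp (((-(t - t₀) : ℝ) : ℂ) * I) - 1) := by
        apply Complex.ext
        · rw [k1, Complex.mul_re, Complex.sub_re, Complex.sub_im, Complex.exp_ofReal_mul_I_re,
            Complex.exp_ofReal_mul_I_im, hB1, h, Real.cos_neg, Real.sin_neg]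
          simp
        · rw [k2, Complex.mul_im, Complex.sub_re, Complex.sub_im, Complex.exp_ofReal_mul_I_re,
            Complex.exp_ofReal_mul_I_im, hB2, h, Real.cos_neg, Real.sin_neg]
          simp; ring
      linear_combination this

end HArea
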