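import Pool.Agent.HArea.Width
import Pool.Agent.HArea.Isom

open MeasureTheory Complex Set Filter Topology

namespace HArea

theorem cos_le_iff {u x : ℝ} (hu0 : 0 < u) (hu : u < Real.pi) (hx : |x| < 2 * Real.pi - u) :
    Real.cos u ≤ Real.cos x ↔ |x| ≤ u := by
  rw [← Real.cos_abs x]
  set y := |x| with hy
  have hy0 : 0 ≤ y := abs_nonneg x
  have hanti := Real.strictAntiOn_cos
  constructor
  · intro h
    by_contra hcon
    push Not at hcon
    rcases le_or_gt y Real.pi with h1 | h1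
    · have := hanti ⟨hu0.le, hu.le⟩ ⟨hy0, h1⟩ hcon
      linarith
    · have h2 : Real.cos y = Real.cos (2 * Real.pi - y) := by
        rw [Real.cos_two_pi_sub]
      have := hanti (a := u) (b := 2 * Real.pi - y) ⟨hu0.le, hu.le⟩
        ⟨by linarith, by linarith⟩ (by linarith)
      linarith
  · intro h
    exact hanti.antitoneOn ⟨hy0, h.trans hu.le⟩ ⟨hu0.le, hu.le⟩ h

theorem Cf_cos {u : ℝ} (hu0 : 0 < u) (hu : u < Real.pi) : Cf (Real.cos u) = 2 * Real.sin u := by
  unfold Cf
  rw [int_eq_interval]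
  have hper : Function.Periodic (fun θ => ind (Real.cos u) (Real.cos θ) * Real.cos θ)
      (2 * Real.pi) := fun θ => by simp [Real.cos_add_two_pi]
  have h := hper.intervalIntegral_add_eq 0 (-Real.pi)
  rw [zero_add] at h
  rw [h, show -Real.pi + 2 * Real.pi = Real.pi by ring,
    intervalIntegral.integral_of_le (by linarith [Real.pi_pos])]
  have e : ∀ θ ∈ Ioc (-Real.pi) Real.pi, ind (Real.cos u) (Real.cos θ) * Real.cos θ
      = (Icc (-u) u).indicator Real.cos θ := by
    intro θ hθ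
    have h1 := cos_le_iff (x := θ) hu0 hu (by
      have : |θ| ≤ Real.pi := abs_le.2 ⟨hθ.1.le, hθ.2⟩
      linarith)
    unfold ind
    by_cases h2 : |θ| ≤ u
    · rw [if_pos (h1.2 h2), indicator_of_mem (show θ ∈ Icc (-u) u from abs_le.1 h2), one_mul]
    · have h3 : θ ∉ Icc (-u) u := fun hh => h2 (abs_le.2 hh)
      rw [if_neg (fun hh => h2 (h1.1 hh)), indicator_of_notMem h3, zero_mul]
  rw [setIntegral_congr_fun measurableSet_Ioc e, setIntegral_indicator measurableSet_Icc]
  have e2 : Ioc (-Real.pi) Real.pi ∩ Icc (-u) u = Icc (-u) u := by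
    apply inter_eq_right.2
    intro x hx
    exact ⟨by linarith [hx.1], by linarith [hx.2]⟩
  rw [e2, integral_Icc_eq_integral_Ioc, ← intervalIntegral.integral_of_le (by linarith),
    integral_cos, Real.sin_neg]
  ring

/-- the chord of the selection over `[a,b)` -/
noncomputable def Nf (α : ℝ → ℝ) (a b : ℝ) : ℂ :=
  ∫ θ, (if a ≤ α θ ∧ α θ < b then (1:ℂ) else 0) * Complex.exp (θ * I) ∂μ₀

noncomputable def Gf (α : ℝ → ℝ) (t : ℝ) : ℂ :=
  ∫ θ, (if α θ < t then (1:ℂ) else 0) * Complex.exp (θ * I) ∂μ₀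

variable {α : ℝ → ℝ} (hα : Measurable α)
include hα

omit hα in
theorem integrable_ite (P : ℝ → Prop) [DecidablePred P] (hP : MeasurableSet {θ | P θ}) :
    Integrable (fun θ : ℝ => (if P θ then (1:ℂ) else 0) * Complex.exp (θ * I)) μ₀ := by
  apply integrable_of_bdd _ _ _ 1
  · intro θ
    rw [norm_mul, Complex.norm_exp_ofReal_mul_I, mul_one]
    split_ifs <;> simp
  · apply Measurable.aestronglyMeasurable
    apply Measurable.mul
    · exact Measurable.ite hP measurable_const measurable_const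
    · fun_prop

theorem Nf_eq {a b : ℝ} (hab : a ≤ b) : Nf α a b = Gf α b - Gf α a := by
  unfold Nf Gf
  rw [← integral_sub]
  · congr 1
    ext θ
    by_cases h1 : α θ < a
    · have h2 : α θ < b := h1.trans_le hab
      simp [h1, h2, h1.not_ge]
    · push Not at h1
      by_cases h2 : α θ < b
      · simp [h1, h2, h1.not_gt]
      · simp [h1, h2, h1.not_gt]
  · exact integrable_ite _ (measurableSet_lt hα measurable_const)
  · exact integrable_ite _ (measurableSet_lt hα measurable_const)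

variable (hI : ∀ θ, α θ ∈ Icc 0 (2 * Real.pi))
include hI

omit hα in
theorem Psi_eq {t u : ℝ} (hu0 : 0 < u) (hu : u < Real.pi) (h1 : 0 < t - u)
    (h2 : t + u < 2 * Real.pi) :
    Ψ α (Real.cos u) t
      = ∫ θ, (if t - u ≤ α θ ∧ α θ ≤ t + u then (1:ℂ) else 0) * Complex.exp (θ * I) ∂μ₀ := by
  unfold Ψ
  congr 1
  ext θ
  congr 1
  have h3 := hI θ
  have h4 : |t - α θ| < 2 * Real.pi - u := by
    rw [abs_lt]; constructor <;> [linarith [h3.1, h3.2]; linarith [h3.1, h3.2]]
  have h5 := cos_le_iff hu0 hu h4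
  unfold ind
  by_cases h6 : |t - α θ| ≤ u
  · rw [if_pos (h5.2 h6)]
    rw [abs_le] at h6
    rw [if_pos ⟨by linarith [h6.1, h6.2], by linarith [h6.1, h6.2]⟩]
    simp
  · rw [if_neg (fun hh => h6 (h5.1 hh)), if_neg]
    · simp
    · rintro ⟨h7, h8⟩
      exact h6 (abs_le.2 ⟨by linarith, by linarith⟩)

theorem chord (hD : ∀ᵐ p ∂(ν₀.prod μ₀), Df α p.1 p.2 = 0) {a b : ℝ} (ha : 0 < a) (hab : a < b)
    (hb : b < 2 * Real.pi) : ‖Nf α a b‖ = 2 * Real.sin ((b - a) / 2) := by
  -- good points near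
  have hgood : ∀ δ > 0, ∃ a' b' : ℝ, a - δ < a' ∧ a' < a ∧ b - δ < b' ∧ b' < b ∧
      ‖∫ θ, (if a' ≤ α θ ∧ α θ ≤ b' then (1:ℂ) else 0) * Complex.exp (θ * I) ∂μ₀‖
        = 2 * Real.sin ((b' - a') / 2) := by
    intro δ hδ
    rw [Measure.prod_restrict, ae_restrict_iff' (measurableSet_Ioc.prod measurableSet_Ioc)] at hD
    have hdense := Measure.dense_of_ae hD
    set O : Set (ℝ × ℝ) := {p | p.1 ∈ Ioo (-1:ℝ) 1 ∧ p.2 ∈ Ioo 0 (2 * Real.pi) ∧
      p.2 - Real.arccos p.1 ∈ Ioo (max 0 (a - δ)) a ∧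
      p.2 + Real.arccos p.1 ∈ Ioo (max a (b - δ)) b} with hO
    have hOo : IsOpen O := by
      have c1 : Continuous (fun p : ℝ × ℝ => p.2 - Real.arccos p.1) :=
        continuous_snd.sub (Real.continuous_arccos.comp continuous_fst)
      have c2 : Continuous (fun p : ℝ × ℝ => p.2 + Real.arccos p.1) :=
        continuous_snd.add (Real.continuous_arccos.comp continuous_fst)
      exact (isOpen_Ioo.preimage continuous_fst).inter ((isOpen_Ioo.preimage continuous_snd).inter
        ((isOpen_Ioo.preimage c1).inter (isOpen_Ioo.preimage c2)))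
    have hOn : O.Nonempty := by
      obtain ⟨a', ha'⟩ := exists_between (show max 0 (a - δ) < a from max_lt ha (by linarith))
      obtain ⟨b', hb'⟩ := exists_between (show max a (b - δ) < b from max_lt hab (by linarith))
      have h1 : 0 < a' := lt_of_le_of_lt (le_max_left _ _) ha'.1
      have h2 : a < b' := lt_of_le_of_lt (le_max_left _ _) hb'.1
      have h3 : 0 < (b' - a') / 2 := by linarith [ha'.2]
      have h4 : (b' - a') / 2 < Real.pi := by linarith [hb'.2]
      refine ⟨(Real.cos ((b' - a') / 2), (a' + b') / 2), ?_, ?_, ?_, ?_⟩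
      · constructor
        · rw [← Real.cos_pi]
          exact Real.strictAntiOn_cos ⟨h3.le, h4.le⟩ ⟨Real.pi_pos.le, le_rfl⟩ h4
        · rw [← Real.cos_zero]
          exact Real.strictAntiOn_cos ⟨le_rfl, Real.pi_pos.le⟩ ⟨h3.le, h4.le⟩ h3
      · simp only; constructor <;> linarith [ha'.2, hb'.2]
      · simp only
        rw [Real.arccos_cos h3.le h4.le, show (a' + b') / 2 - (b' - a') / 2 = a' by ring]
        exact ha'
      · simp only
        rw [Real.arccos_cos h3.le h4.le, show (a' + b') / 2 + (b' - a') / 2 = b' by ring]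
        exact hb'
    obtain ⟨p, hpO, hp⟩ := hdense.inter_open_nonempty O hOo hOn
    obtain ⟨p1, p2, p3, p4⟩ := hpO
    have hp' : Df α p.1 p.2 = 0 := hp ⟨⟨p1.1, p1.2.le⟩, ⟨p2.1, p2.2.le⟩⟩
    set u := Real.arccos p.1 with hu
    have hu0 : 0 < u := Real.arccos_pos.2 p1.2
    have hupi : u < Real.pi := by
      rcases (Real.arccos_le_pi p.1).lt_or_eq with h | h
      · exact h
      · exact absurd (Real.arccos_eq_pi.1 h) (not_le.2 p1.1)
    have hcos : p.1 = Real.cos u := (Real.cos_arccos p1.1.le p1.2.le).symm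
    refine ⟨p.2 - u, p.2 + u, ?_, p3.2, ?_, p4.2, ?_⟩
    · exact lt_of_le_of_lt (le_max_right _ _) p3.1
    · exact lt_of_le_of_lt (le_max_right _ _) p4.1
    · rw [← Psi_eq hI hu0 hupi (lt_of_le_of_lt (le_max_left _ _) p3.1) (p4.2.trans hb),
        ← hcos, Df_zero hα _ _ hp', hcos, Cf_cos hu0 hupi]
      congr 2; ring
  have hg2 : ∀ n : ℕ, ∃ p : ℝ × ℝ, a - 1 / ((n:ℝ) + 1) < p.1 ∧ p.1 < a ∧
      b - 1 / ((n:ℝ) + 1) < p.2 ∧ p.2 < b ∧
      ‖∫ θ, (if p.1 ≤ α θ ∧ α θ ≤ p.2 then (1:ℂ) else 0) * Complex.exp (θ * I) ∂μ₀‖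
        = 2 * Real.sin ((p.2 - p.1) / 2) := by
    intro n
    obtain ⟨a', b', h⟩ := hgood (1 / ((n:ℝ) + 1)) (by positivity)
    exact ⟨(a', b'), h⟩
  choose p hp using hg2
  have hlim0 : Tendsto (fun n : ℕ => 1 / ((n:ℝ) + 1)) atTop (𝓝 0) :=
    tendsto_one_div_add_atTop_nhds_zero_nat
  have ta : Tendsto (fun n => (p n).1) atTop (𝓝 a) := by
    apply tendsto_of_tendsto_of_tendsto_of_le_of_le (g := fun n : ℕ => a - 1 / ((n:ℝ) + 1))
      (h := fun _ => a)
    · simpa using hlim0.const_sub a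
    · exact tendsto_const_nhds
    · intro n; exact (hp n).1.le
    · intro n; exact (hp n).2.1.le
  have tb : Tendsto (fun n => (p n).2) atTop (𝓝 b) := by
    apply tendsto_of_tendsto_of_tendsto_of_le_of_le (g := fun n : ℕ => b - 1 / ((n:ℝ) + 1))
      (h := fun _ => b)
    · simpa using hlim0.const_sub b
    · exact tendsto_const_nhds
    · intro n; exact (hp n).2.2.1.le
    · intro n; exact (hp n).2.2.2.1.le
  have tN : Tendsto (fun n => ∫ θ, (if (p n).1 ≤ α θ ∧ α θ ≤ (p n).2 then (1:ℂ) else 0) *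
      Complex.exp (θ * I) ∂μ₀) atTop (𝓝 (Nf α a b)) := by
    unfold Nf
    apply tendsto_integral_of_dominated_convergence (fun _ => (1:ℝ))
    · intro n
      exact (integrable_ite (fun θ => (p n).1 ≤ α θ ∧ α θ ≤ (p n).2)
        ((measurableSet_le measurable_const hα).inter
        (measurableSet_le hα measurable_const))).aestronglyMeasurable
    · exact integrable_const _
    · intro n
      filter_upwards with θ
      rw [norm_mul, Complex.norm_exp_ofReal_mul_I, mul_one]
      split_ifs <;> simp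
    · filter_upwards with θ
      apply Tendsto.mul_const
      by_cases h1 : α θ < a
      · have h2 : ∀ᶠ n in atTop, α θ < (p n).1 := ta.eventually_const_lt h1
        apply tendsto_const_nhds.congr'
        filter_upwards [h2] with n hn
        rw [if_neg (fun h => absurd h.1 (not_le.2 h1)), if_neg (fun h => absurd h.1 (not_le.2 hn))]
      · push Not at h1
        by_cases h2 : α θ < b
        · have h3 : ∀ᶠ n in atTop, α θ < (p n).2 := tb.eventually_const_lt h2
          apply tendsto_const_nhds.congr'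
          filter_upwards [h3] with n hn
          rw [if_pos ⟨h1, h2⟩, if_pos ⟨((hp n).2.1.le).trans h1, hn.le⟩]
        · push Not at h2
          apply tendsto_const_nhds.congr'
          filter_upwards with n
          rw [if_neg (fun h => absurd h.2 (not_lt.2 h2)),
            if_neg (fun h => absurd h.2 (not_le.2 ((hp n).2.2.2.1.trans_le h2)))]
  have tS : Tendsto (fun n => 2 * Real.sin (((p n).2 - (p n).1) / 2)) atTop
      (𝓝 (2 * Real.sin ((b - a) / 2))) := by
    apply Tendsto.const_mul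
    exact (Real.continuous_sin.tendsto _).comp ((tb.sub ta).div_const 2)
  have e : (fun n => ‖∫ θ, (if (p n).1 ≤ α θ ∧ α θ ≤ (p n).2 then (1:ℂ) else 0) *
      Complex.exp (θ * I) ∂μ₀‖) = fun n => 2 * Real.sin (((p n).2 - (p n).1) / 2) := by
    ext n; exact (hp n).2.2.2.2
  have := tN.norm
  rw [e] at this
  exact tendsto_nhds_unique this tS

theorem G_isom (hD : ∀ᵐ p ∂(ν₀.prod μ₀), Df α p.1 p.2 = 0) :
    ∀ a ∈ Ioo 0 (2 * Real.pi), ∀ b ∈ Ioo 0 (2 * Real.pi),
      ‖Gf α b - Gf α a‖ ^ 2 = 2 - 2 * Real.cos (b - a) := by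
  have main : ∀ a ∈ Ioo 0 (2 * Real.pi), ∀ b ∈ Ioo 0 (2 * Real.pi), a < b →
      ‖Gf α b - Gf α a‖ ^ 2 = 2 - 2 * Real.cos (b - a) := by
    intro a ha b hb hab
    rw [← Nf_eq hα hab.le, chord hα hI hD ha.1 hab hb.2]
    have : Real.cos (b - a) = 1 - 2 * Real.sin ((b - a) / 2) ^ 2 := by
      have h := Real.cos_two_mul ((b - a) / 2)
      have h2 := Real.sin_sq_add_cos_sq ((b - a) / 2)
      rw [show 2 * ((b - a) / 2) = b - a by ring] at h
      rw [h]; linarith
    rw [this]; ring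
  intro a ha b hb
  rcases lt_trichotomy a b with h | h | h
  · exact main a ha b hb h
  · rw [h]; simp
  · rw [← norm_neg, neg_sub, main b hb a ha h, ← Real.cos_neg, neg_sub]

end HArea
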