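import Pool.Agent.HArea.Phase

open MeasureTheory Complex Set Filter Topology

namespace HArea

theorem norm_exp_neg (φ : ℝ) : ‖Complex.exp (-(φ * I))‖ = 1 := by
  rw [show (-(φ * I) : ℂ) = ((-φ : ℝ) : ℂ) * I by push_cast; ring, Complex.norm_exp_ofReal_mul_I]

theorem norm_exp_eps (ε t : ℝ) : ‖Complex.exp (ε * t * I)‖ = 1 := by
  rw [show (ε * t * I : ℂ) = ((ε * t : ℝ) : ℂ) * I by push_cast; ring,
    Complex.norm_exp_ofReal_mul_I]

theorem exp_eps_periodic {ε : ℝ} (hε : ε = 1 ∨ ε = -1) (t : ℝ) :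
    Complex.exp (ε * ((t + 2 * Real.pi : ℝ) : ℂ) * I) = Complex.exp (ε * t * I) := by
  rcases hε with h | h
  · rw [h, show (((1:ℝ):ℂ) * ((t + 2 * Real.pi : ℝ) : ℂ) * I) = ((1:ℝ):ℂ) * t * I
      + 2 * Real.pi * I by push_cast; ring, Complex.exp_add, Complex.exp_two_pi_mul_I, mul_one]
  · rw [h, show (((-1:ℝ):ℂ) * ((t + 2 * Real.pi : ℝ) : ℂ) * I) = ((-1:ℝ):ℂ) * t * I
      - 2 * Real.pi * I by push_cast; ring, Complex.exp_sub, Complex.exp_two_pi_mul_I, div_one]

theorem exp_neg_periodic (φ t : ℝ) :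
    Complex.exp (-(((t + 2 * Real.pi + φ : ℝ) : ℂ) * I))
      = Complex.exp (-(((t + φ : ℝ) : ℂ) * I)) := by
  rw [show -(((t + 2 * Real.pi + φ : ℝ) : ℂ) * I) = -(((t + φ : ℝ) : ℂ) * I)
      - 2 * Real.pi * I by push_cast; ring, Complex.exp_sub, Complex.exp_two_pi_mul_I, div_one]

variable {f : ℂ → ℂ} (hf : InnerProductSpace.HarmonicOnNhd f (Metric.ball 0 1))
  {ε : ℝ} (hε : ε = 1 ∨ ε = -1)
include hf

theorem cont_F {ρ : ℝ} (h0 : 0 ≤ ρ) (h1 : ρ < 1) :
    Continuous (fun t : ℝ => f (ρ * Complex.exp (ε * t * I))) :=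
  hf.continuousOn.comp_continuous (by fun_prop) (fun t => by
    rw [mem_ball_zero_iff, norm_mul, norm_exp_eps, mul_one, Complex.norm_real,
      Real.norm_eq_abs, abs_of_nonneg h0]
    exact h1)

include hε in
theorem poisson_F {r ρ : ℝ} (hr : 0 ≤ r) (hρ : r < ρ) (hρ1 : ρ < 1) (w a : ℝ) :
    (f (r * Complex.exp (ε * a * I)) * Complex.exp (-(w * I))).re = (2 * Real.pi)⁻¹ *
      ∫ t, q ρ r (Real.cos (t - a)) *
        (f (ρ * Complex.exp (ε * t * I)) * Complex.exp (-(w * I))).re ∂μ₀ := by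
  have h := poisson_f hf hr hρ hρ1 w (ε * a)
  rcases hε with h1 | h1
  · rw [h1] at h ⊢
    simp only [one_mul, Complex.ofReal_one] at h ⊢
    exact h
  · rw [h1] at h ⊢
    have e := periodic_shift' (fun t : ℝ => q ρ r (Real.cos (t - (-1) * a)) *
        (f (ρ * Complex.exp (t * I)) * Complex.exp (-(w * I))).re) (by
          intro t
          simp only
          rw [show t + 2 * Real.pi - (-1) * a = (t - (-1) * a) + 2 * Real.pi by ring,
            Real.cos_add_two_pi, show (((t + 2 * Real.pi : ℝ) : ℂ) * I) = t * I + 2 * Real.pi * I by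
            push_cast; ring, Complex.exp_add, Complex.exp_two_pi_mul_I, mul_one]) 0
    rw [show (((-1:ℝ):ℂ) * a * I) = (((-1) * a : ℝ) : ℂ) * I by push_cast; ring, h, ← e]
    congr 1
    apply integral_congr_ae
    filter_upwards with t
    rw [show 0 - t - -1 * a = -(t - a) by ring, Real.cos_neg,
      show (((0 - t : ℝ) : ℂ) * I) = ((-1:ℝ):ℂ) * t * I by push_cast; ring]

omit hf in
theorem poisson_lin {r ρ : ℝ} (hr : 0 ≤ r) (hρ : r < ρ) (X : ℂ) (t : ℝ) :
    ∫ a, q ρ r (Real.cos (t - a)) * (X * Complex.exp (-(a * I))).re ∂μ₀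
      = 2 * Real.pi * (r / ρ) * (X * Complex.exp (-(t * I))).re := by
  have hρ0 : 0 < ρ := lt_of_le_of_lt hr hρ
  have hu : InnerProductSpace.HarmonicOnNhd (fun z : ℂ => ((starRingEnd ℂ) X * z).re)
      (Metric.closedBall 0 ρ) := by
    intro x _
    have : AnalyticAt ℂ (fun z : ℂ => (starRingEnd ℂ) X * z) x :=
      analyticAt_const.mul analyticAt_id
    exact this.harmonicAt_re
  have h := poisson hr hρ hu t
  have e : ∀ (s b : ℝ), ((starRingEnd ℂ) X * (s * Complex.exp (b * I))).re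
      = s * (X * Complex.exp (-(b * I))).re := by
    intro s b
    have h3 : Complex.exp (-(b * I)) = (starRingEnd ℂ) (Complex.exp (b * I)) := by
      rw [← Complex.exp_conj]; simp
    rw [h3]
    simp only [mul_re, mul_im, conj_re, conj_im, ofReal_re, ofReal_im]
    ring
  simp only [e] at h
  have e2 : ∀ a : ℝ, q ρ r (Real.cos (a - t)) * (ρ * (X * Complex.exp (-(a * I))).re)
      = ρ * (q ρ r (Real.cos (t - a)) * (X * Complex.exp (-(a * I))).re) := by
    intro a
    rw [show a - t = -(t - a) by ring, Real.cos_neg]; ring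
  simp only [e2] at h
  rw [integral_const_mul] at h
  have hpi := two_pi_pos'
  field_simp at h ⊢
  linarith

variable (hb : ∀ z ∈ Metric.ball (0:ℂ) 1, ‖f z‖ ≤ 1)

include hε hb in
/-- transfer of the first Fourier coefficient -/
theorem coeff_transfer {r ρ φ : ℝ} (hr : 0 < r) (hρ : r < ρ) (hρ1 : ρ < 1)
    (h : ∫ a, (f (r * Complex.exp (ε * a * I)) *
      Complex.exp (-(((a + φ : ℝ) : ℂ) * I))).re ∂μ₀ = 2 * Real.pi * r) :
    ∫ t, (f (ρ * Complex.exp (ε * t * I)) *
      Complex.exp (-(((t + φ : ℝ) : ℂ) * I))).re ∂μ₀ = 2 * Real.pi * ρ := by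
  obtain ⟨C, hC⟩ := q_bdd (ρ := ρ) (r := r) hr.le hρ
  have hC0 : 0 ≤ C := (norm_nonneg _).trans (hC 0)
  have hqm : Measurable (q ρ r) := measurable_q
  have hFm : Measurable (fun t : ℝ => f (ρ * Complex.exp (ε * t * I))) :=
    (cont_F hf (hr.le.trans hρ.le) hρ1).measurable
  have hFb : ∀ t : ℝ, ‖f (ρ * Complex.exp (ε * t * I))‖ ≤ 1 := by
    intro t
    apply hb
    rw [mem_ball_zero_iff, norm_mul, norm_exp_eps, mul_one, Complex.norm_real,
      Real.norm_eq_abs, abs_of_nonneg (hr.le.trans hρ.le)]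
    exact hρ1
  have hint : Integrable (Function.uncurry (fun (a t : ℝ) => q ρ r (Real.cos (t - a)) *
        (f (ρ * Complex.exp (ε * t * I)) * Complex.exp (-(((a + φ : ℝ) : ℂ) * I))).re))
        (μ₀.prod μ₀) := by
    apply Integrable.of_bound (C := C)
    · apply Measurable.aestronglyMeasurable
      unfold Function.uncurry
      have h1 : Measurable (fun p : ℝ × ℝ => f (ρ * Complex.exp (ε * p.2 * I))) :=
        hFm.comp measurable_snd
      apply Measurable.mul
      · fun_prop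
      · exact Complex.measurable_re.comp (h1.mul (by fun_prop))
    · filter_upwards with p
      simp only [Function.uncurry]
      rw [norm_mul]
      have h1 : ‖(f (ρ * Complex.exp (ε * p.2 * I)) *
          Complex.exp (-(((p.1 + φ : ℝ) : ℂ) * I))).re‖ ≤ 1 := by
        refine (Complex.abs_re_le_norm _).trans ?_
        rw [norm_mul, norm_exp_neg, mul_one]
        exact hFb _
      calc _ ≤ C * 1 := mul_le_mul (hC _) h1 (norm_nonneg _) hC0
        _ = C := mul_one _
  have e1 : ∀ a : ℝ, (f (r * Complex.exp (ε * a * I)) *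
      Complex.exp (-(((a + φ : ℝ) : ℂ) * I))).re = (2 * Real.pi)⁻¹ *
      ∫ t, q ρ r (Real.cos (t - a)) * (f (ρ * Complex.exp (ε * t * I)) *
      Complex.exp (-(((a + φ : ℝ) : ℂ) * I))).re ∂μ₀ := fun a =>
    poisson_F hf hε hr.le hρ hρ1 (a + φ) a
  simp only [e1] at h
  rw [integral_const_mul, integral_integral_swap hint] at h
  have e2 : ∀ t : ℝ, ∫ a, q ρ r (Real.cos (t - a)) * (f (ρ * Complex.exp (ε * t * I)) *
      Complex.exp (-(((a + φ : ℝ) : ℂ) * I))).re ∂μ₀
      = 2 * Real.pi * (r / ρ) * (f (ρ * Complex.exp (ε * t * I)) *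
      Complex.exp (-(((t + φ : ℝ) : ℂ) * I))).re := by
    intro t
    have e3 : ∀ a : ℝ, f (ρ * Complex.exp (ε * t * I)) *
      Complex.exp (-(((a + φ : ℝ) : ℂ) * I))
      = (f (ρ * Complex.exp (ε * t * I)) * Complex.exp (-(φ * I))) * Complex.exp (-(a * I)) := by
      intro a
      have : Complex.exp (-(((a + φ : ℝ) : ℂ) * I))
          = Complex.exp (-(φ * I)) * Complex.exp (-(a * I)) := by
        rw [← Complex.exp_add]
        congr 1
        push_cast; ring
      rw [this]; ring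
    simp only [e3]
    exact poisson_lin hr.le hρ _ t
  simp only [e2] at h
  rw [integral_const_mul] at h
  have hρ0 : 0 < ρ := hr.trans hρ
  have hpi := two_pi_pos'
  have h5 : ∀ J : ℝ, (2 * Real.pi)⁻¹ * (2 * Real.pi * (r / ρ) * J) = (r / ρ) * J := by
    intro J; field_simp
  rw [h5] at h
  have h6 : (r / ρ) ≠ 0 := (div_pos hr hρ0).ne'
  have h7 : 2 * Real.pi * r = (r / ρ) * (2 * Real.pi * ρ) := by field_simp
  rw [h7] at h
  exact mul_left_cancel₀ h6 h

end HArea
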