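import Pool.Agent.HArea.Kernel

open MeasureTheory Complex Set

namespace HArea

variable (α : ℝ → ℝ)

noncomputable def Lf (s t : ℝ) : ℝ := ∫ θ, ind s (Real.cos (t - α θ)) ∂μ₀
noncomputable def Ψ (s t : ℝ) : ℂ :=
  ∫ θ, ((ind s (Real.cos (t - α θ)) : ℝ) : ℂ) * Complex.exp (θ * I) ∂μ₀
noncomputable def Df (s t : ℝ) : ℝ := Bf s + s * Lf α s t - ‖Ψ α s t‖

variable {α} (hα : Measurable α)
include hα

theorem meas_J3 : Measurable (fun p : (ℝ × ℝ) × ℝ => ind p.1.1 (Real.cos (p.1.2 - α p.2))) := by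
  have : Measurable (fun p : (ℝ × ℝ) × ℝ => (p.1.1, Real.cos (p.1.2 - α p.2))) := by fun_prop
  exact measurable_ind.comp this

theorem meas_J (s t : ℝ) : Measurable (fun θ => ind s (Real.cos (t - α θ))) := by
  have : Measurable (fun θ : ℝ => (s, Real.cos (t - α θ))) := by fun_prop
  exact measurable_ind.comp this

theorem Df_nonneg (s t : ℝ) : 0 ≤ Df α s t := by
  unfold Df
  have := bathtub _ (meas_J hα s t) (fun θ => ind_or _ _) s
  unfold Lf Ψ
  linarith

theorem Df_zero (s t : ℝ) (h : Df α s t = 0) : ‖Ψ α s t‖ = Cf s := by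
  unfold Df at h
  exact bathtub_eq _ (meas_J hα s t) (fun θ => ind_or _ _) s
    (by unfold Lf Ψ at h; linarith)

theorem meas_Lf : Measurable (fun p : ℝ × ℝ => Lf α p.1 p.2) := by
  unfold Lf
  exact ((meas_J3 hα).stronglyMeasurable.integral_prod_right (ν := μ₀)
    (f := fun (p : ℝ × ℝ) (θ : ℝ) => ind p.1 (Real.cos (p.2 - α θ)))).measurable

theorem meas_Ψ : Measurable (fun p : ℝ × ℝ => Ψ α p.1 p.2) := by
  unfold Ψ
  have : Measurable (fun p : (ℝ × ℝ) × ℝ =>
      ((ind p.1.1 (Real.cos (p.1.2 - α p.2)) : ℝ) : ℂ) * Complex.exp (p.2 * I)) := by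
    have := meas_J3 hα
    fun_prop
  exact (this.stronglyMeasurable.integral_prod_right (ν := μ₀)
    (f := fun (p : ℝ × ℝ) (θ : ℝ) =>
      ((ind p.1 (Real.cos (p.2 - α θ)) : ℝ) : ℂ) * Complex.exp (θ * I))).measurable

omit hα in
theorem meas_Bf : Measurable Bf := by
  unfold Bf
  have : Measurable (fun p : ℝ × ℝ => max (Real.cos p.2 - p.1) 0) := by fun_prop
  exact (this.stronglyMeasurable.integral_prod_right (ν := μ₀)
    (f := fun (s : ℝ) (θ : ℝ) => max (Real.cos θ - s) 0)).measurable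

omit hα in
theorem Lf_nonneg (s t : ℝ) : 0 ≤ Lf α s t := integral_nonneg (fun _ => ind_nonneg _ _)

omit hα in
theorem Lf_le (s t : ℝ) : Lf α s t ≤ 2 * Real.pi := by
  have h1 : ‖Lf α s t‖ ≤ 1 * μ₀.real univ := by
    unfold Lf
    apply norm_integral_le_of_norm_le_const
    filter_upwards with θ
    rw [Real.norm_eq_abs, abs_of_nonneg (ind_nonneg _ _)]
    exact ind_le_one _ _
  rw [μ₀_univ, one_mul] at h1
  exact (le_abs_self _).trans h1

omit hα in
theorem Ψ_le (s t : ℝ) : ‖Ψ α s t‖ ≤ 2 * Real.pi := by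
  have h1 : ‖Ψ α s t‖ ≤ 1 * μ₀.real univ := by
    unfold Ψ
    apply norm_integral_le_of_norm_le_const
    filter_upwards with θ
    rw [norm_mul, Complex.norm_exp_ofReal_mul_I, mul_one, Complex.norm_real, Real.norm_eq_abs,
      abs_of_nonneg (ind_nonneg _ _)]
    exact ind_le_one _ _
  rwa [μ₀_univ, one_mul] at h1

omit hα in
theorem Bf_nonneg (s : ℝ) : 0 ≤ Bf s := integral_nonneg (fun _ => le_max_right _ _)

omit hα in
theorem Bf_le {s : ℝ} (hs : -1 ≤ s) : Bf s ≤ 2 * (2 * Real.pi) := by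
  have h1 : ‖Bf s‖ ≤ 2 * μ₀.real univ := by
    unfold Bf
    apply norm_integral_le_of_norm_le_const
    filter_upwards with θ
    rw [Real.norm_eq_abs, abs_of_nonneg (le_max_right _ _)]
    apply max_le
    · have := Real.cos_le_one θ; linarith
    · norm_num
  rw [μ₀_univ] at h1
  exact (le_abs_self _).trans h1

theorem int_Lf (s : ℝ) : ∫ t, Lf α s t ∂μ₀ = 2 * Real.pi * mf s := by
  unfold Lf
  rw [integral_integral_swap]
  · have : ∀ θ, ∫ t, ind s (Real.cos (t - α θ)) ∂μ₀ = mf s := by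
      intro θ
      exact periodic_shift (fun t => ind s (Real.cos t)) (fun t => by simp [Real.cos_add_two_pi]) _
    simp only [this]
    rw [integral_const, μ₀_univ, smul_eq_mul]
  · apply Integrable.of_bound (C := 1)
    · have : Measurable (fun p : ℝ × ℝ => ind s (Real.cos (p.1 - α p.2))) := by
        have h : Measurable (fun p : ℝ × ℝ => (s, Real.cos (p.1 - α p.2))) := by fun_prop
        exact measurable_ind.comp h
      exact this.aestronglyMeasurable
    · filter_upwards with p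
      simp only [Function.uncurry]
      rw [Real.norm_eq_abs, abs_of_nonneg (ind_nonneg _ _)]
      exact ind_le_one _ _

theorem meas_Df : Measurable (fun p : ℝ × ℝ => Df α p.1 p.2) := by
  unfold Df
  have h1 := meas_Lf hα
  have h2 := meas_Ψ hα
  have h3 := meas_Bf
  exact ((h3.comp measurable_fst).add (measurable_fst.mul h1)).sub h2.norm

theorem Df_bound {s : ℝ} (hs : s ∈ Ioc (-1:ℝ) 1) (t : ℝ) : ‖Df α s t‖ ≤ 6 * Real.pi := by
  rw [Real.norm_eq_abs, abs_of_nonneg (Df_nonneg hα s t)]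
  unfold Df
  have h1 := Bf_le (s := s) hs.1.le
  have h2 := Lf_le (α := α) s t
  have h3 := Lf_nonneg (α := α) s t
  have h4 := norm_nonneg (Ψ α s t)
  have h5 : s * Lf α s t ≤ 1 * Lf α s t := mul_le_mul_of_nonneg_right hs.2 h3
  linarith

theorem integrable_Lf (s : ℝ) : Integrable (fun t => Lf α s t) μ₀ := by
  apply integrable_of_bdd _ _ _ (2 * Real.pi)
  · intro t; rw [Real.norm_eq_abs, abs_of_nonneg (Lf_nonneg _ _)]; exact Lf_le _ _
  · exact ((meas_Lf hα).comp (measurable_const.prodMk measurable_id)).aestronglyMeasurable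

theorem integrable_normΨ (s : ℝ) : Integrable (fun t => ‖Ψ α s t‖) μ₀ := by
  apply integrable_of_bdd _ _ _ (2 * Real.pi)
  · intro t; rw [norm_norm]; exact Ψ_le _ _
  · exact ((meas_Ψ hα).comp (measurable_const.prodMk measurable_id)).norm.aestronglyMeasurable

theorem int_normΨ (s : ℝ) :
    ∫ t, ‖Ψ α s t‖ ∂μ₀ = 2 * Real.pi * Cf s - ∫ t, Df α s t ∂μ₀ := by
  have h : ∀ t, Df α s t = (Bf s + s * Lf α s t) - ‖Ψ α s t‖ := fun t => rfl
  simp only [h]
  have e1 := integral_sub (((integrable_const (μ := μ₀) (Bf s)).add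
    ((integrable_Lf hα s).const_mul s))) (integrable_normΨ hα s)
  have e2 := integral_add (integrable_const (μ := μ₀) (Bf s)) ((integrable_Lf hα s).const_mul s)
  simp only [Pi.add_apply] at e1
  rw [e1, e2, integral_const, μ₀_univ, integral_const_mul, int_Lf hα, smul_eq_mul, ← Bf_add]
  ring

omit hα in
theorem int_exp : ∫ θ : ℝ, Complex.exp (θ * I) ∂μ₀ = 0 := by
  rw [int_eq_interval]
  have h := integral_exp_mul_complex (a := 0) (b := 2 * Real.pi) (c := I) Complex.I_ne_zero
  have e : ∀ θ : ℝ, Complex.exp (θ * I) = Complex.exp (I * θ) := fun θ => by rw [mul_comm]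
  simp only [e]
  rw [h]
  have : Complex.exp (I * ((2 * Real.pi : ℝ) : ℂ)) = 1 := by
    rw [mul_comm]; push_cast; exact Complex.exp_two_pi_mul_I
  rw [this]
  simp

variable {ρ r : ℝ} (hr : 0 ≤ r) (hρ : r < ρ)
include hr hρ

theorem Phi_bound (t : ℝ) :
    ‖∫ θ, ((q ρ r (Real.cos (t - α θ)) : ℝ) : ℂ) * Complex.exp (θ * I) ∂μ₀‖
      ≤ ∫ s, q' ρ r s * ‖Ψ α s t‖ ∂ν₀ := by
  have e1 : ∀ θ : ℝ, ((q ρ r (Real.cos (t - α θ)) : ℝ) : ℂ) * Complex.exp (θ * I)
      = (q ρ r (-1) : ℂ) * Complex.exp (θ * I)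
        + ∫ s, ((q' ρ r s * ind s (Real.cos (t - α θ)) : ℝ) : ℂ) * Complex.exp (θ * I) ∂ν₀ := by
    intro θ
    rw [q_layer hr hρ ⟨Real.neg_one_le_cos _, Real.cos_le_one _⟩]
    rw [integral_mul_const, integral_complex_ofReal]
    push_cast
    ring
  have hint : Integrable (Function.uncurry (fun (θ s : ℝ) =>
      ((q' ρ r s * ind s (Real.cos (t - α θ)) : ℝ) : ℂ) * Complex.exp (θ * I)))
      (μ₀.prod ν₀) := by
    apply Integrable.mono' (g := fun p : ℝ × ℝ => ‖q' ρ r p.2‖)
    · exact (integrable_q' hr hρ).norm.comp_snd μ₀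
    · have h1 : Measurable (fun p : ℝ × ℝ => ind p.2 (Real.cos (t - α p.1))) := by
        have h : Measurable (fun p : ℝ × ℝ => (p.2, Real.cos (t - α p.1))) := by fun_prop
        exact measurable_ind.comp h
      have h2 : Measurable (fun p : ℝ × ℝ => q' ρ r p.2) := measurable_q'.comp measurable_snd
      apply Measurable.aestronglyMeasurable
      unfold Function.uncurry
      fun_prop
    · filter_upwards with p
      simp only [Function.uncurry]
      rw [norm_mul, Complex.norm_exp_ofReal_mul_I, mul_one, Complex.norm_real, norm_mul]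
      have : ‖ind p.2 (Real.cos (t - α p.1))‖ ≤ 1 := by
        rw [Real.norm_eq_abs, abs_of_nonneg (ind_nonneg _ _)]; exact ind_le_one _ _
      nlinarith [norm_nonneg (q' ρ r p.2)]
  have hI1 : Integrable (fun θ : ℝ => (q ρ r (-1) : ℂ) * Complex.exp (θ * I)) μ₀ := by
    apply Integrable.const_mul
    apply integrable_of_bdd _ _ _ 1
    · intro θ; rw [Complex.norm_exp_ofReal_mul_I]
    · exact (by fun_prop : Measurable (fun θ : ℝ => Complex.exp (θ * I))).aestronglyMeasurable
  simp only [e1]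
  have e3 := integral_add hI1 hint.integral_prod_left
  simp only [Function.uncurry] at e3
  rw [e3, integral_const_mul, int_exp, mul_zero, zero_add, integral_integral_swap hint]
  have e2 : ∀ s, ∫ θ, ((q' ρ r s * ind s (Real.cos (t - α θ)) : ℝ) : ℂ) * Complex.exp (θ * I) ∂μ₀
      = (q' ρ r s : ℂ) * Ψ α s t := by
    intro s
    unfold Ψ
    rw [← integral_const_mul]
    congr 1
    ext θ
    push_cast; ring
  simp only [e2]
  refine (norm_integral_le_integral_norm _).trans (le_of_eq ?_)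
  apply integral_congr_ae
  filter_upwards [ae_restrict_mem measurableSet_Ioc] with s hs
  rw [norm_mul, Complex.norm_real, Real.norm_eq_abs, abs_of_nonneg (q'_nonneg hr hρ hs.2)]

omit hα in
theorem int_q'_Cf : ∫ s, q' ρ r s * Cf s ∂ν₀ = 2 * Real.pi * (r / ρ) := by
  have hint : Integrable (Function.uncurry (fun (s θ : ℝ) =>
      q' ρ r s * (ind s (Real.cos θ) * Real.cos θ))) (ν₀.prod μ₀) := by
    apply Integrable.mono' (g := fun p : ℝ × ℝ => ‖q' ρ r p.1‖)
    · exact (integrable_q' hr hρ).norm.comp_fst μ₀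
    · have h1 : Measurable (fun p : ℝ × ℝ => ind p.1 (Real.cos p.2)) := by
        have h : Measurable (fun p : ℝ × ℝ => (p.1, Real.cos p.2)) := by fun_prop
        exact measurable_ind.comp h
      have h2 : Measurable (fun p : ℝ × ℝ => q' ρ r p.1) := measurable_q'.comp measurable_fst
      apply Measurable.aestronglyMeasurable
      unfold Function.uncurry
      fun_prop
    · filter_upwards with p
      simp only [Function.uncurry]
      rw [norm_mul, norm_mul]
      have h1 : ‖ind p.1 (Real.cos p.2)‖ ≤ 1 := by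
        rw [Real.norm_eq_abs, abs_of_nonneg (ind_nonneg _ _)]; exact ind_le_one _ _
      have h2 : ‖Real.cos p.2‖ ≤ 1 := by rw [Real.norm_eq_abs]; exact Real.abs_cos_le_one _
      have h3 : ‖ind p.1 (Real.cos p.2)‖ * ‖Real.cos p.2‖ ≤ 1 := by
        nlinarith [norm_nonneg (ind p.1 (Real.cos p.2)), norm_nonneg (Real.cos p.2)]
      nlinarith [norm_nonneg (q' ρ r p.1)]
  have e1 : ∀ s, q' ρ r s * Cf s = ∫ θ, q' ρ r s * (ind s (Real.cos θ) * Real.cos θ) ∂μ₀ := by
    intro s; unfold Cf; rw [integral_const_mul]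
  simp only [e1]
  rw [integral_integral_swap hint]
  have e2 : ∀ θ, ∫ s, q' ρ r s * (ind s (Real.cos θ) * Real.cos θ) ∂ν₀
      = q ρ r (Real.cos (θ - 0)) * Real.cos θ - q ρ r (-1) * Real.cos θ := by
    intro θ
    rw [sub_zero]
    have := q_layer hr hρ (c := Real.cos θ) ⟨Real.neg_one_le_cos _, Real.cos_le_one _⟩
    rw [this, ← sub_mul, add_sub_cancel_left, ← integral_mul_const]
    congr 1
    ext s; ring
  simp only [e2]
  have hρ0 : 0 < ρ := by linarith
  have hP := poisson hr hρ (u := fun z : ℂ => z.re) (by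
    intro x _
    exact (analyticAt_id (𝕜 := ℂ) (z := x)).harmonicAt_re) 0
  have e3 : ∫ θ, q ρ r (Real.cos (θ - 0)) * Real.cos θ ∂μ₀ = 2 * Real.pi * (r / ρ) := by
    simp only [Complex.ofReal_zero, zero_mul, Complex.exp_zero, mul_one, Complex.ofReal_re,
      Complex.re_ofReal_mul, Complex.exp_ofReal_mul_I_re] at hP
    have e4 : ∀ θ, q ρ r (Real.cos (θ - 0)) * (ρ * Real.cos θ)
        = ρ * (q ρ r (Real.cos (θ - 0)) * Real.cos θ) := fun θ => by ring
    simp only [e4] at hP
    rw [integral_const_mul] at hP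
    have hpi : (2 * Real.pi) ≠ 0 := two_pi_pos'.ne'
    field_simp
    field_simp at hP
    linarith
  have hI : Integrable (fun θ => q ρ r (Real.cos (θ - 0)) * Real.cos θ) μ₀ := by
    apply Continuous.integrableOn_Ioc
    apply Continuous.mul _ Real.continuous_cos
    exact (continuousOn_q hr hρ).comp_continuous (by fun_prop)
      (fun θ => ⟨Real.neg_one_le_cos _, Real.cos_le_one _⟩)
  rw [integral_sub hI (integrable_cos_μ₀.const_mul _), e3, integral_const_mul]
  have e5 : ∫ θ, Real.cos θ ∂μ₀ = 0 := by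
    rw [int_eq_interval, integral_cos]; simp
  rw [e5]; ring

omit hα in
theorem q_bdd : ∃ C : ℝ, ∀ x : ℝ, ‖q ρ r (Real.cos x)‖ ≤ C := by
  obtain ⟨C, hC⟩ := isCompact_Icc.exists_bound_of_continuousOn (continuousOn_q hr hρ)
  exact ⟨C, fun x => hC _ ⟨Real.neg_one_le_cos _, Real.cos_le_one _⟩⟩

theorem main_ineq (g : ℝ → ℂ) (hg : Measurable g) (hg1 : ∀ t, ‖g t‖ ≤ 1) :
    (∫ θ, (2 * Real.pi)⁻¹ * ∫ t, q ρ r (Real.cos (t - α θ)) *
        (g t * Complex.exp (-(θ * I))).re ∂μ₀ ∂μ₀)
      + (2 * Real.pi)⁻¹ * ∫ s, q' ρ r s * ∫ t, Df α s t ∂μ₀ ∂ν₀ ≤ 2 * Real.pi * (r / ρ) := by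
  obtain ⟨C, hC⟩ := q_bdd hr hρ
  have hC0 : 0 ≤ C := (norm_nonneg _).trans (hC 0)
  have hqm : Measurable (q ρ r) := measurable_q
  rw [integral_const_mul]
  have hint : Integrable (Function.uncurry (fun (θ t : ℝ) => q ρ r (Real.cos (t - α θ)) *
        (g t * Complex.exp (-(θ * I))).re)) (μ₀.prod μ₀) := by
    apply Integrable.of_bound (C := C)
    · apply Measurable.aestronglyMeasurable
      unfold Function.uncurry
      fun_prop
    · filter_upwards with p
      simp only [Function.uncurry]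
      rw [norm_mul]
      have h1 : ‖(g p.2 * Complex.exp (-(p.1 * I))).re‖ ≤ 1 := by
        refine (Complex.abs_re_le_norm _).trans ?_
        rw [norm_mul, show (-(p.1 * I) : ℂ) = ((-p.1 : ℝ) : ℂ) * I by push_cast; ring,
          Complex.norm_exp_ofReal_mul_I, mul_one]
        exact hg1 _
      calc _ ≤ C * 1 := mul_le_mul (hC _) h1 (norm_nonneg _) hC0
        _ = C := mul_one _
  rw [integral_integral_swap hint]
  set Φ : ℝ → ℂ := fun t => ∫ θ, ((q ρ r (Real.cos (t - α θ)) : ℝ) : ℂ) * Complex.exp (θ * I) ∂μ₀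
    with hΦ
  have hI2 : ∀ t, Integrable (fun θ : ℝ => ((q ρ r (Real.cos (t - α θ)) : ℝ) : ℂ) *
      Complex.exp (θ * I)) μ₀ := by
    intro t
    apply integrable_of_bdd _ _ _ C
    · intro θ
      rw [norm_mul, Complex.norm_exp_ofReal_mul_I, mul_one, Complex.norm_real]
      exact hC _
    · apply Measurable.aestronglyMeasurable
      fun_prop
  have e1 : ∀ t, ∫ θ, q ρ r (Real.cos (t - α θ)) * (g t * Complex.exp (-(θ * I))).re ∂μ₀
      = ((starRingEnd ℂ) (g t) * Φ t).re := by
    intro t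
    rw [hΦ]
    simp only
    rw [← integral_const_mul]
    have h2 := integral_re ((hI2 t).const_mul ((starRingEnd ℂ) (g t)))
    simp only [RCLike.re_eq_complex_re] at h2
    rw [← h2]
    apply integral_congr_ae
    filter_upwards with θ
    have h3 : Complex.exp (-(θ * I)) = (starRingEnd ℂ) (Complex.exp (θ * I)) := by
      rw [← Complex.exp_conj]; simp
    rw [h3]
    simp only [mul_re, mul_im, conj_re, conj_im, ofReal_re, ofReal_im]
    ring
  have e2 : ∀ t, ((starRingEnd ℂ) (g t) * Φ t).re ≤ ∫ s, q' ρ r s * ‖Ψ α s t‖ ∂ν₀ := by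
    intro t
    refine (Complex.re_le_norm _).trans ?_
    rw [norm_mul, Complex.norm_conj]
    refine le_trans ?_ (Phi_bound hα hr hρ t)
    calc _ ≤ 1 * ‖Φ t‖ := mul_le_mul_of_nonneg_right (hg1 t) (norm_nonneg _)
      _ = _ := one_mul _
  have hint2 : Integrable (Function.uncurry (fun (t s : ℝ) => q' ρ r s * ‖Ψ α s t‖))
      (μ₀.prod ν₀) := by
    apply Integrable.mono' (g := fun p : ℝ × ℝ => ‖q' ρ r p.2‖ * (2 * Real.pi))
    · exact ((integrable_q' hr hρ).norm.comp_snd μ₀).mul_const _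
    · have h1 : Measurable (fun p : ℝ × ℝ => Ψ α p.2 p.1) := (meas_Ψ hα).comp measurable_swap
      have h2 : Measurable (fun p : ℝ × ℝ => q' ρ r p.2) := measurable_q'.comp measurable_snd
      apply Measurable.aestronglyMeasurable
      unfold Function.uncurry
      fun_prop
    · filter_upwards with p
      simp only [Function.uncurry]
      rw [norm_mul, norm_norm]
      exact mul_le_mul_of_nonneg_left (Ψ_le _ _) (norm_nonneg _)
  have hint3 : Integrable (fun t => ∫ θ, q ρ r (Real.cos (t - α θ)) *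
      (g t * Complex.exp (-(θ * I))).re ∂μ₀) μ₀ := hint.integral_prod_right
  have e3 : ∫ t, ∫ θ, q ρ r (Real.cos (t - α θ)) * (g t * Complex.exp (-(θ * I))).re ∂μ₀ ∂μ₀
      ≤ ∫ t, ∫ s, q' ρ r s * ‖Ψ α s t‖ ∂ν₀ ∂μ₀ := by
    apply integral_mono hint3 hint2.integral_prod_left
    intro t
    simp only
    rw [e1]
    exact e2 t
  have e4 : ∫ t, ∫ s, q' ρ r s * ‖Ψ α s t‖ ∂ν₀ ∂μ₀
      = 2 * Real.pi * (2 * Real.pi * (r / ρ)) - ∫ s, q' ρ r s * ∫ t, Df α s t ∂μ₀ ∂ν₀ := by
    rw [integral_integral_swap hint2]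
    have e5 : ∀ s, ∫ t, q' ρ r s * ‖Ψ α s t‖ ∂μ₀ = 2 * Real.pi * (q' ρ r s * Cf s)
        - q' ρ r s * ∫ t, Df α s t ∂μ₀ := by
      intro s
      rw [integral_const_mul, int_normΨ hα]; ring
    simp only [e5]
    have hI3 : Integrable (fun s => 2 * Real.pi * (q' ρ r s * Cf s)) ν₀ := by
      apply Integrable.const_mul
      apply Integrable.mono' (g := fun s => ‖q' ρ r s‖ * (2 * Real.pi))
      · exact (integrable_q' hr hρ).norm.mul_const _
      · have : Measurable Cf := by
          unfold Cf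
          have h1 : Measurable (fun p : ℝ × ℝ => ind p.1 (Real.cos p.2) * Real.cos p.2) := by
            have h : Measurable (fun p : ℝ × ℝ => (p.1, Real.cos p.2)) := by fun_prop
            exact (measurable_ind.comp h).mul (Real.measurable_cos.comp measurable_snd)
          exact (h1.stronglyMeasurable.integral_prod_right (ν := μ₀)
            (f := fun (s : ℝ) (θ : ℝ) => ind s (Real.cos θ) * Real.cos θ)).measurable
        exact (measurable_q'.mul this).aestronglyMeasurable
      · filter_upwards with s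
        rw [norm_mul]
        apply mul_le_mul_of_nonneg_left _ (norm_nonneg _)
        have h1 : ‖Cf s‖ ≤ 1 * μ₀.real univ := by
          unfold Cf
          apply norm_integral_le_of_norm_le_const
          filter_upwards with θ
          rw [norm_mul]
          have h1 : ‖ind s (Real.cos θ)‖ ≤ 1 := by
            rw [Real.norm_eq_abs, abs_of_nonneg (ind_nonneg _ _)]; exact ind_le_one _ _
          have h2 : ‖Real.cos θ‖ ≤ 1 := by rw [Real.norm_eq_abs]; exact Real.abs_cos_le_one _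
          nlinarith [norm_nonneg (ind s (Real.cos θ)), norm_nonneg (Real.cos θ)]
        rwa [μ₀_univ, one_mul] at h1
    have hI4 : Integrable (fun s => q' ρ r s * ∫ t, Df α s t ∂μ₀) ν₀ := by
      have h := hint2.swap.integral_prod_left
      have h5 : (fun s => q' ρ r s * ∫ t, Df α s t ∂μ₀) = fun s =>
          2 * Real.pi * (q' ρ r s * Cf s) - ∫ t, q' ρ r s * ‖Ψ α s t‖ ∂μ₀ := by
        ext s; rw [e5]; ring
      rw [h5]
      exact hI3.sub h
    rw [integral_sub hI3 hI4, integral_const_mul, int_q'_Cf hr hρ]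
  rw [e4] at e3
  have hpi := two_pi_pos'
  have e6 : (2 * Real.pi)⁻¹ * (2 * Real.pi * (2 * Real.pi * (r / ρ))) = 2 * Real.pi * (r / ρ) := by
    field_simp
  have e7 := mul_le_mul_of_nonneg_left e3 (inv_nonneg.2 hpi.le)
  rw [mul_sub, e6] at e7
  linarith

end HArea
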