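import Pool.Agent.HArea.Basic

open MeasureTheory Complex Set

namespace HArea

/-- the Poisson kernel for radii `r < ρ` as a function of the cosine of the angle -/
noncomputable def q (ρ r c : ℝ) : ℝ := (ρ ^ 2 - r ^ 2) / (ρ ^ 2 + r ^ 2 - 2 * ρ * r * c)

noncomputable def q' (ρ r c : ℝ) : ℝ :=
  (ρ ^ 2 - r ^ 2) * (2 * ρ * r) / (ρ ^ 2 + r ^ 2 - 2 * ρ * r * c) ^ 2

variable {ρ r : ℝ}

theorem den_pos (hr : 0 ≤ r) (hρ : r < ρ) {c : ℝ} (hc : c ≤ 1) :
    0 < ρ ^ 2 + r ^ 2 - 2 * ρ * r * c := by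
  have h1 : 0 < (ρ - r) ^ 2 := by
    have : 0 < ρ - r := by linarith
    positivity
  have h2 : 0 ≤ 2 * ρ * r * (1 - c) := by
    apply mul_nonneg
    · apply mul_nonneg
      · linarith
      · exact hr
    · linarith
  nlinarith

theorem num_pos (hr : 0 ≤ r) (hρ : r < ρ) : 0 < ρ ^ 2 - r ^ 2 := by nlinarith

theorem q_pos (hr : 0 ≤ r) (hρ : r < ρ) {c : ℝ} (hc : c ≤ 1) : 0 < q ρ r c :=
  div_pos (num_pos hr hρ) (den_pos hr hρ hc)

theorem q'_nonneg (hr : 0 ≤ r) (hρ : r < ρ) {c : ℝ} (hc : c ≤ 1) : 0 ≤ q' ρ r c := by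
  unfold q'
  have := num_pos hr hρ
  have h2 := den_pos hr hρ hc
  have : 0 ≤ 2 * ρ * r := mul_nonneg (by linarith) hr
  positivity

theorem hasDerivAt_q (hr : 0 ≤ r) (hρ : r < ρ) {c : ℝ} (hc : c ≤ 1) :
    HasDerivAt (q ρ r) (q' ρ r c) c := by
  have hd := (den_pos hr hρ hc).ne'
  have h1 : HasDerivAt (fun c : ℝ => ρ ^ 2 + r ^ 2 - 2 * ρ * r * c) (-(2 * ρ * r)) c := by
    have := ((hasDerivAt_id c).const_mul (2 * ρ * r)).const_sub (ρ ^ 2 + r ^ 2)
    simpa using this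
  have h2 := (hasDerivAt_const c (ρ ^ 2 - r ^ 2)).div h1 hd
  exact h2.congr_deriv (by unfold q'; ring)

theorem continuousOn_q' (hr : 0 ≤ r) (hρ : r < ρ) : ContinuousOn (q' ρ r) (Icc (-1) 1) := by
  unfold q'
  apply ContinuousOn.div
  · fun_prop
  · fun_prop
  · intro x hx
    exact pow_ne_zero _ (den_pos hr hρ hx.2).ne'

theorem continuousOn_q (hr : 0 ≤ r) (hρ : r < ρ) : ContinuousOn (q ρ r) (Icc (-1) 1) := by
  unfold q
  apply ContinuousOn.div
  · fun_prop
  · fun_prop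
  · intro x hx
    exact (den_pos hr hρ hx.2).ne'

theorem measurable_q : Measurable (q ρ r) := by unfold q; fun_prop
theorem measurable_q' : Measurable (q' ρ r) := by unfold q'; fun_prop

/-- level variable measure -/
noncomputable abbrev ν₀ : Measure ℝ := volume.restrict (Ioc (-1:ℝ) 1)

theorem integrable_q' (hr : 0 ≤ r) (hρ : r < ρ) : Integrable (q' ρ r) ν₀ := by
  have := (continuousOn_q' hr hρ).integrableOn_Icc (μ := volume)
  exact this.mono_set Ioc_subset_Icc_self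

theorem q_layer (hr : 0 ≤ r) (hρ : r < ρ) {c : ℝ} (hc : c ∈ Icc (-1:ℝ) 1) :
    q ρ r c = q ρ r (-1) + ∫ s, q' ρ r s * ind s c ∂ν₀ := by
  have h1 : ∫ s, q' ρ r s * ind s c ∂ν₀ = ∫ s in (-1:ℝ)..c, q' ρ r s := by
    rw [intervalIntegral.integral_of_le hc.1]
    have : (fun s => q' ρ r s * ind s c) = (Iic c).indicator (q' ρ r) := by
      ext s
      unfold ind
      by_cases h : s ≤ c
      · rw [if_pos h, indicator_of_mem (show s ∈ Iic c from h)]; ring
      · rw [if_neg h, indicator_of_notMem (show s ∉ Iic c from h)]; ring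
    rw [this, integral_indicator measurableSet_Iic, Measure.restrict_restrict measurableSet_Iic]
    congr 2
    ext s
    simp only [mem_inter_iff, mem_Iic, mem_Ioc]
    constructor
    · rintro ⟨h1, h2, h3⟩; exact ⟨h2, h1⟩
    · rintro ⟨h1, h2⟩; exact ⟨h2, h1, h2.trans hc.2⟩
  rw [h1, intervalIntegral.integral_eq_sub_of_hasDerivAt]
  · ring
  · intro x hx
    rw [uIcc_of_le hc.1] at hx
    exact hasDerivAt_q hr hρ (hx.2.trans hc.2)
  · apply ContinuousOn.intervalIntegrable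
    rw [uIcc_of_le hc.1]
    exact (continuousOn_q' hr hρ).mono (Icc_subset_Icc le_rfl hc.2)

/-- Poisson's formula in the concrete form used here -/
theorem poisson (hr : 0 ≤ r) (hρ : r < ρ) {u : ℂ → ℝ}
    (hu : InnerProductSpace.HarmonicOnNhd u (Metric.closedBall 0 ρ)) (a : ℝ) :
    u (r * Complex.exp (a * I)) = (2 * Real.pi)⁻¹ *
      ∫ t, q ρ r (Real.cos (t - a)) * u (ρ * Complex.exp (t * I)) ∂μ₀ := by
  have hw : (r * Complex.exp (a * I) : ℂ) ∈ Metric.ball (0:ℂ) ρ := by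
    rw [mem_ball_zero_iff, norm_mul, Complex.norm_exp_ofReal_mul_I, mul_one, Complex.norm_real,
      Real.norm_eq_abs, abs_of_nonneg hr]
    exact hρ
  rw [← hu.circleAverage_poissonKernel_smul hw, Real.circleAverage_def,
    ← int_eq_interval, smul_eq_mul]
  congr 1
  apply integral_congr_ae
  filter_upwards with t
  simp only [Pi.smul_apply', smul_eq_mul, circleMap, zero_add]
  congr 1
  rw [poissonKernel_def]
  unfold q
  have e1 : ‖(ρ * Complex.exp (t * I) : ℂ) - 0‖ ^ 2 = ρ ^ 2 := by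
    rw [sub_zero, norm_mul, Complex.norm_exp_ofReal_mul_I, mul_one, Complex.norm_real,
      Real.norm_eq_abs, sq_abs]
  have e2 : ‖(r * Complex.exp (a * I) : ℂ) - 0‖ ^ 2 = r ^ 2 := by
    rw [sub_zero, norm_mul, Complex.norm_exp_ofReal_mul_I, mul_one, Complex.norm_real,
      Real.norm_eq_abs, sq_abs]
  have e3 : ‖(ρ * Complex.exp (t * I) : ℂ) - 0 - (r * Complex.exp (a * I) - 0)‖ ^ 2
      = ρ ^ 2 + r ^ 2 - 2 * ρ * r * Real.cos (t - a) := by
    rw [sub_zero, sub_zero, ← Complex.normSq_eq_norm_sq, Complex.normSq_apply]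
    simp only [sub_re, sub_im, Complex.re_ofReal_mul, Complex.im_ofReal_mul,
      Complex.exp_ofReal_mul_I_re, Complex.exp_ofReal_mul_I_im]
    rw [Real.cos_sub]
    have h1 := Real.sin_sq_add_cos_sq t
    have h2 := Real.sin_sq_add_cos_sq a
    nlinarith
  rw [e1, e2, e3]

end HArea
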