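import Pool.Agent.HArea.Chord

open MeasureTheory Complex Set Filter Topology

namespace HArea

/-- `e^{-iεx} = 1 + ∫_x^{2π} iε e^{-iεt} dt` -/
theorem exp_tail {ε : ℝ} (hε : ε = 1 ∨ ε = -1) {x : ℝ} (hx : x ∈ Icc 0 (2 * Real.pi)) :
    Complex.exp (-(ε * x * I)) = 1 + ∫ t, (if x < t then (1:ℂ) else 0) *
      (ε * I * Complex.exp (-(ε * t * I))) ∂μ₀ := by
  have h1 : ∫ t, (if x < t then (1:ℂ) else 0) * (ε * I * Complex.exp (-(ε * t * I))) ∂μ₀
      = ∫ t in x..(2 * Real.pi), ε * I * Complex.exp (-(ε * t * I)) := by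
    rw [intervalIntegral.integral_of_le hx.2]
    have e : (fun t : ℝ => (if x < t then (1:ℂ) else 0) * (ε * I * Complex.exp (-(ε * t * I))))
        = (Ioi x).indicator (fun t : ℝ => ε * I * Complex.exp (-(ε * t * I))) := by
      ext t
      by_cases h : x < t
      · rw [if_pos h, indicator_of_mem (show t ∈ Ioi x from h), one_mul]
      · rw [if_neg h, indicator_of_notMem (show t ∉ Ioi x from h), zero_mul]
    rw [e, setIntegral_indicator measurableSet_Ioi]
    congr 2
    ext t
    simp only [mem_inter_iff, mem_Ioc, mem_Ioi]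
    constructor
    · rintro ⟨⟨_, h2⟩, h3⟩; exact ⟨h3, h2⟩
    · rintro ⟨h1, h2⟩; exact ⟨⟨lt_of_le_of_lt hx.1 h1, h2⟩, h1⟩
  have h2 : ∀ t ∈ uIcc x (2 * Real.pi), HasDerivAt (fun t : ℝ => -Complex.exp (-(ε * t * I)))
      (ε * I * Complex.exp (-(ε * t * I))) t := by
    intro t _
    have h3 : HasDerivAt (fun t : ℝ => (-(ε * t * I) : ℂ)) (-(ε * I)) t := by
      have h := (((hasDerivAt_id t).ofReal_comp.const_mul (ε:ℂ)).mul_const I).neg
      exact h.congr_deriv (by simp)
    have h4 := h3.cexp.neg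
    exact h4.congr_deriv (by ring)
  rw [h1, intervalIntegral.integral_eq_sub_of_hasDerivAt h2
    (by apply Continuous.intervalIntegrable; fun_prop)]
  have h5 : Complex.exp (-(ε * (2 * Real.pi : ℝ) * I)) = 1 := by
    rcases hε with h | h
    · rw [h, show (-(((1:ℝ):ℂ) * ((2 * Real.pi : ℝ):ℂ) * I) : ℂ) = -(2 * Real.pi * I) by
        push_cast; ring, Complex.exp_neg, Complex.exp_two_pi_mul_I, inv_one]
    · rw [h, show (-(((-1:ℝ):ℂ) * ((2 * Real.pi : ℝ):ℂ) * I) : ℂ) = (2 * Real.pi * I) by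
        push_cast; ring, Complex.exp_two_pi_mul_I]
  rw [h5]; ring

theorem int_exp_eps {ε : ℝ} (hε : ε = 1 ∨ ε = -1) :
    ∫ t : ℝ, Complex.exp (-(ε * t * I)) ∂μ₀ = 0 := by
  rcases hε with h | h
  · have e : ∀ t : ℝ, Complex.exp (-(ε * t * I)) = (starRingEnd ℂ) (Complex.exp (t * I)) := by
      intro t
      rw [← Complex.exp_conj, h]; simp
    simp only [e]
    rw [integral_conj, int_exp, map_zero]
  · have e : ∀ t : ℝ, Complex.exp (-(ε * t * I)) = Complex.exp (t * I) := by
      intro t; rw [h]; congr 1; push_cast; ring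
    simp only [e]
    exact int_exp

variable {α : ℝ → ℝ} (hα : Measurable α) (hI : ∀ θ, α θ ∈ Icc 0 (2 * Real.pi))
include hα hI

theorem phase_norm {ε : ℝ} (hε : ε = 1 ∨ ε = -1) {C A : ℂ} (hA : ‖A‖ = 1)
    (hG : ∀ t ∈ Ioo 0 (2 * Real.pi), Gf α t = C + A * Complex.exp (ε * t * I)) :
    ‖∫ θ, Complex.exp (θ * I) * Complex.exp (-(ε * α θ * I)) ∂μ₀‖ = 2 * Real.pi := by
  have hint : Integrable (Function.uncurry (fun (θ t : ℝ) => Complex.exp (θ * I) *
      ((if α θ < t then (1:ℂ) else 0) * (ε * I * Complex.exp (-(ε * t * I)))))) (μ₀.prod μ₀) := by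
    apply Integrable.of_bound (C := 1)
    · apply Measurable.aestronglyMeasurable
      unfold Function.uncurry
      apply Measurable.mul (by fun_prop)
      apply Measurable.mul _ (by fun_prop)
      exact Measurable.ite (measurableSet_lt (hα.comp measurable_fst) measurable_snd)
        measurable_const measurable_const
    · filter_upwards with p
      simp only [Function.uncurry]
      have h1 : ‖(ε : ℂ) * I * Complex.exp (-(ε * p.2 * I))‖ = 1 := by
        rw [norm_mul, norm_mul, Complex.norm_I,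
          show (-(ε * p.2 * I) : ℂ) = ((-(ε * p.2) : ℝ) : ℂ) * I by push_cast; ring,
          Complex.norm_exp_ofReal_mul_I, Complex.norm_real]
        rcases hε with h | h <;> simp [h]
      rw [norm_mul, norm_mul, h1, Complex.norm_exp_ofReal_mul_I]
      split_ifs <;> simp
  have e1 : ∀ θ : ℝ, Complex.exp (θ * I) * Complex.exp (-(ε * α θ * I))
      = Complex.exp (θ * I) + ∫ t, Complex.exp (θ * I) *
      ((if α θ < t then (1:ℂ) else 0) * (ε * I * Complex.exp (-(ε * t * I)))) ∂μ₀ := by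
    intro θ
    rw [exp_tail hε (hI θ), integral_const_mul]; ring
  have hI1 : Integrable (fun θ : ℝ => Complex.exp (θ * I)) μ₀ := by
    apply integrable_of_bdd _ _ _ 1
    · intro θ; rw [Complex.norm_exp_ofReal_mul_I]
    · exact (by fun_prop : Measurable (fun θ : ℝ => Complex.exp (θ * I))).aestronglyMeasurable
  simp only [e1]
  have e3 := integral_add hI1 hint.integral_prod_left
  simp only [Function.uncurry] at e3
  rw [e3, int_exp, zero_add, integral_integral_swap hint]
  have e4 : ∀ t : ℝ, ∫ θ, Complex.exp (θ * I) *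
      ((if α θ < t then (1:ℂ) else 0) * (ε * I * Complex.exp (-(ε * t * I)))) ∂μ₀
      = ε * I * Complex.exp (-(ε * t * I)) * Gf α t := by
    intro t
    unfold Gf
    rw [← integral_const_mul]
    congr 1
    ext θ; ring
  simp only [e4]
  have e5 : ∫ t, ε * I * Complex.exp (-(ε * t * I)) * Gf α t ∂μ₀
      = ∫ t, (ε * I * C * Complex.exp (-(ε * t * I)) + ε * I * A) ∂μ₀ := by
    have hne : ∀ᵐ t : ℝ, t ≠ 2 * Real.pi := by
      rw [ae_iff]; simp
    apply integral_congr_ae
    filter_upwards [ae_restrict_mem measurableSet_Ioc, ae_restrict_of_ae hne] with t ht hne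
    rw [hG t ⟨ht.1, lt_of_le_of_ne ht.2 hne⟩]
    have : Complex.exp (-(ε * t * I)) * Complex.exp (ε * t * I) = 1 := by
      rw [← Complex.exp_add]; simp
    linear_combination (ε * I * A) * this
  have hI2 : Integrable (fun t : ℝ => ε * I * C * Complex.exp (-(ε * t * I))) μ₀ := by
    apply Integrable.const_mul
    apply integrable_of_bdd _ _ _ 1
    · intro θ
      rw [show (-(ε * θ * I) : ℂ) = ((-(ε * θ) : ℝ) : ℂ) * I by push_cast; ring,
          Complex.norm_exp_ofReal_mul_I]
    · exact (by fun_prop : Measurable (fun θ : ℝ => Complex.exp (-(ε * θ * I)))).aestronglyMeasurable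
  rw [e5, integral_add hI2 (integrable_const _), integral_const_mul, int_exp_eps hε, mul_zero,
    zero_add, integral_const, μ₀_univ, norm_smul]
  have h1 : ‖(ε : ℂ) * I * A‖ = 1 := by
    rw [norm_mul, norm_mul, hA, Complex.norm_I, Complex.norm_real]
    rcases hε with h | h <;> simp [h]
  rw [h1, Real.norm_eq_abs, abs_of_pos two_pi_pos', mul_one]

omit hI in
theorem phase_const {ε : ℝ}
    (hn : ‖∫ θ, Complex.exp (θ * I) * Complex.exp (-(ε * α θ * I)) ∂μ₀‖ = 2 * Real.pi) :
    ∃ φ : ℝ, ∀ᵐ θ ∂μ₀, Complex.exp (ε * α θ * I) = Complex.exp (((θ - φ : ℝ) : ℂ) * I) := by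
  set E : ℝ → ℂ := fun θ => Complex.exp (θ * I) * Complex.exp (-(ε * α θ * I)) with hE
  have hEn : ∀ θ, ‖E θ‖ = 1 := by
    intro θ
    rw [hE]; simp only
    rw [norm_mul, Complex.norm_exp_ofReal_mul_I,
      show (-(ε * α θ * I) : ℂ) = ((-(ε * α θ) : ℝ) : ℂ) * I by push_cast; ring,
      Complex.norm_exp_ofReal_mul_I, mul_one]
  have hEm : Measurable E := by rw [hE]; fun_prop
  have hEi : Integrable E μ₀ := integrable_of_bdd _ _ hEm.aestronglyMeasurable 1
    (fun θ => (hEn θ).le)
  set Z := ∫ θ, E θ ∂μ₀ with hZ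
  set φ := Z.arg with hφ
  have hZa := Complex.norm_mul_exp_arg_mul_I Z
  rw [hn] at hZa
  refine ⟨φ, ?_⟩
  have h1 : ∫ θ, (1 - (E θ * Complex.exp (-(φ * I))).re) ∂μ₀ = 0 := by
    have hi : Integrable (fun θ => E θ * Complex.exp (-(φ * I))) μ₀ := hEi.mul_const _
    have h2 := integral_re hi
    simp only [RCLike.re_eq_complex_re] at h2
    have h6 := integral_sub (integrable_const (μ := μ₀) (1:ℝ)) hi.re
    simp only [RCLike.re_eq_complex_re] at h6
    have h7 : (Z.arg * I + -(φ * I) : ℂ) = 0 := by rw [hφ]; ring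
    rw [h6, h2, integral_mul_const, ← hZ, ← hZa, integral_const, μ₀_univ, mul_assoc,
      ← Complex.exp_add, h7]
    simp
  have h0 : ∀ θ, 0 ≤ 1 - (E θ * Complex.exp (-(φ * I))).re := by
    intro θ
    have : (E θ * Complex.exp (-(φ * I))).re ≤ 1 := by
      refine (Complex.re_le_norm _).trans ?_
      rw [norm_mul, hEn, show (-(φ * I) : ℂ) = ((-φ : ℝ) : ℂ) * I by push_cast; ring,
        Complex.norm_exp_ofReal_mul_I, mul_one]
    linarith
  have hi : Integrable (fun θ => 1 - (E θ * Complex.exp (-(φ * I))).re) μ₀ := by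
    have hi' : Integrable (fun θ => E θ * Complex.exp (-(φ * I))) μ₀ := hEi.mul_const _
    exact (integrable_const _).sub hi'.re
  have h3 := (integral_eq_zero_iff_of_nonneg h0 hi).1 h1
  filter_upwards [h3] with θ hθ
  simp only [Pi.zero_apply] at hθ
  set W := E θ * Complex.exp (-(φ * I)) with hW
  have hWn : ‖W‖ = 1 := by
    rw [hW, norm_mul, hEn, show (-(φ * I) : ℂ) = ((-φ : ℝ) : ℂ) * I by push_cast; ring,
        Complex.norm_exp_ofReal_mul_I, mul_one]
  have hW1 : W = 1 := by
    have hre : W.re = 1 := by linarith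
    have h4 := nsq W
    rw [hWn, hre] at h4
    have him : W.im = 0 := by nlinarith
    apply Complex.ext
    · rw [hre, Complex.one_re]
    · rw [him, Complex.one_im]
  have h5 : Complex.exp (((θ - φ : ℝ) : ℂ) * I)
      = W * Complex.exp (ε * α θ * I) := by
    rw [hW, hE]; simp only
    rw [← Complex.exp_add, ← Complex.exp_add, ← Complex.exp_add]
    congr 1
    push_cast; ring
  rw [h5, hW1, one_mul]

end HArea
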