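import Pool.Agent.HArea.Ident

open MeasureTheory Complex Set Filter Topology

namespace HArea

variable {f : ℂ → ℂ} (hf : InnerProductSpace.HarmonicOnNhd f (Metric.ball 0 1))
  {ε : ℝ} (hε : ε = 1 ∨ ε = -1) (hb : ∀ z ∈ Metric.ball (0:ℂ) 1, ‖f z‖ ≤ 1)

omit hf in
theorem exp_split (a φ : ℝ) : Complex.exp (-(((a + φ : ℝ) : ℂ) * I))
    = Complex.exp (-(φ * I)) * Complex.exp (-(a * I)) := by
  rw [← Complex.exp_add]
  congr 1
  push_cast; ring

include hf hε hb in
/-- If the first coefficient is extremal on all circles close to the boundary then `f` is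
a rotation (composed with a conjugation if `ε = -1`). -/
theorem rigid_re {r φ : ℝ} (hr1 : r < 1)
    (h : ∀ ρ, r < ρ → ρ < 1 → ∫ t, (f (ρ * Complex.exp (ε * t * I)) *
      Complex.exp (-(((t + φ : ℝ) : ℂ) * I))).re ∂μ₀ = 2 * Real.pi * ρ)
    {s : ℝ} (hs : 0 ≤ s) (hs1 : s < 1) (b w : ℝ) :
    (f (s * Complex.exp (ε * b * I)) * Complex.exp (-(((w + φ : ℝ) : ℂ) * I))).re
      = (s * Complex.exp (b * I) * Complex.exp (-(w * I))).re := by
  set d := (f (s * Complex.exp (ε * b * I)) * Complex.exp (-(((w + φ : ℝ) : ℂ) * I))).re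
      - (s * Complex.exp (b * I) * Complex.exp (-(w * I))).re with hd
  -- main estimate
  have main : ∀ ρ, max 0 (max r s) < ρ → ρ < 1 → ∀ l > 0,
      |d| ≤ (ρ + s) / (ρ - s) * ((1 - ρ ^ 2) / (2 * l)) + l / 2 := by
    intro ρ hρ hρ1 l hl
    have hρ0 : 0 < ρ := lt_of_le_of_lt (le_max_left _ _) hρ
    have hρr : r < ρ := lt_of_le_of_lt ((le_max_left _ _).trans (le_max_right _ _)) hρ
    have hρs : s < ρ := lt_of_le_of_lt ((le_max_right _ _).trans (le_max_right _ _)) hρ
    have hFc := cont_F hf (ε := ε) hρ0.le hρ1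
    have hFb : ∀ t : ℝ, ‖f (ρ * Complex.exp (ε * t * I))‖ ≤ 1 := by
      intro t
      apply hb
      rw [mem_ball_zero_iff, norm_mul, norm_exp_eps, mul_one, Complex.norm_real,
        Real.norm_eq_abs, abs_of_nonneg hρ0.le]
      exact hρ1
    set E : ℝ → ℂ := fun t => f (ρ * Complex.exp (ε * t * I)) * Complex.exp (-(φ * I))
      - ρ * Complex.exp (t * I) with hE
    have hEc : Continuous E := by
      rw [hE]
      exact (hFc.mul continuous_const).sub (by fun_prop)
    -- representation of d
    have e1 := poisson_F hf hε hs hρs hρ1 (w + φ) b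
    have e2 := poisson hs hρs (u := fun z : ℂ => (z * Complex.exp (-(w * I))).re) (by
      intro x _
      have : AnalyticAt ℂ (fun z : ℂ => z * Complex.exp (-(w * I))) x :=
        analyticAt_id.mul analyticAt_const
      exact this.harmonicAt_re) b
    have i1 : Integrable (fun t => q ρ s (Real.cos (t - b)) *
        (f (ρ * Complex.exp (ε * t * I)) *
          Complex.exp (-(((w + φ : ℝ) : ℂ) * I))).re) μ₀ := by
      apply Continuous.integrableOn_Ioc
      apply Continuous.mul
      · exact (continuousOn_q hs hρs).comp_continuous (by fun_prop)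
          (fun θ => ⟨Real.neg_one_le_cos _, Real.cos_le_one _⟩)
      · exact Complex.continuous_re.comp (hFc.mul continuous_const)
    have i2 : Integrable (fun t => q ρ s (Real.cos (t - b)) *
        (ρ * Complex.exp (t * I) * Complex.exp (-(w * I))).re) μ₀ := by
      apply Continuous.integrableOn_Ioc
      apply Continuous.mul
      · exact (continuousOn_q hs hρs).comp_continuous (by fun_prop)
          (fun θ => ⟨Real.neg_one_le_cos _, Real.cos_le_one _⟩)
      · exact Complex.continuous_re.comp (by fun_prop)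
    have hrep : d = (2 * Real.pi)⁻¹ * ∫ t, q ρ s (Real.cos (t - b)) *
        (E t * Complex.exp (-(w * I))).re ∂μ₀ := by
      rw [hd, e1, e2, ← mul_sub, ← integral_sub i1 i2]
      congr 1
      apply integral_congr_ae
      filter_upwards with t
      rw [← mul_sub, ← Complex.sub_re]
      congr 2
      rw [hE]; simp only
      have : Complex.exp (-(((w + φ : ℝ) : ℂ) * I))
          = Complex.exp (-(φ * I)) * Complex.exp (-(w * I)) := by
        rw [← Complex.exp_add]
        congr 1
        push_cast; ring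
      rw [this]; ring
    -- L2 norm
    have hL2 : ∫ t, ‖E t‖ ^ 2 ∂μ₀ ≤ 2 * Real.pi * (1 - ρ ^ 2) := by
      have hh := h ρ hρr hρ1
      have hpt : ∀ t : ℝ, ‖E t‖ ^ 2 ≤ (1 + ρ ^ 2) - 2 * ρ * (f (ρ * Complex.exp (ε * t * I)) *
          Complex.exp (-(((t + φ : ℝ) : ℂ) * I))).re := by
        intro t
        set V := f (ρ * Complex.exp (ε * t * I)) * Complex.exp (-(φ * I)) with hV
        have hVn : ‖V‖ ≤ 1 := by rw [hV, norm_mul, norm_exp_neg, mul_one]; exact hFb t
        have h1 : f (ρ * Complex.exp (ε * t * I)) * Complex.exp (-(((t + φ : ℝ) : ℂ) * I))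
            = V * (starRingEnd ℂ) (Complex.exp (t * I)) := by
          have h3 : (starRingEnd ℂ) (Complex.exp (t * I)) = Complex.exp (-(t * I)) := by
            rw [← Complex.exp_conj]; simp
          rw [h3, hV, exp_split]; ring
        rw [h1]
        have h4 : E t = V - ρ * Complex.exp (t * I) := rfl
        rw [h4, nsq]
        have h5 := nsq V
        have h6 := nsq (Complex.exp (t * I))
        rw [Complex.norm_exp_ofReal_mul_I] at h6
        rw [Complex.sub_re, Complex.sub_im, Complex.re_ofReal_mul, Complex.im_ofReal_mul,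
          Complex.mul_re V, Complex.conj_re, Complex.conj_im]
        have h7 : ‖V‖ ^ 2 ≤ 1 := by nlinarith [norm_nonneg V]
        generalize (Complex.exp (t * I)).re = c at *
        generalize (Complex.exp (t * I)).im = s' at *
        have h8 : (V.re - ρ * c) ^ 2 + (V.im - ρ * s') ^ 2
            = (V.re ^ 2 + V.im ^ 2) + ρ ^ 2 * (c ^ 2 + s' ^ 2)
              - 2 * ρ * (V.re * c - V.im * -s') := by ring
        rw [h8, ← h5, ← h6]
        linarith
      calc ∫ t, ‖E t‖ ^ 2 ∂μ₀ ≤ ∫ t, ((1 + ρ ^ 2) - 2 * ρ * (f (ρ * Complex.exp (ε * t * I)) *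
          Complex.exp (-(((t + φ : ℝ) : ℂ) * I))).re) ∂μ₀ := by
            apply integral_mono _ _ hpt
            · exact (Continuous.integrableOn_Ioc (hEc.norm.pow 2))
            · apply Continuous.integrableOn_Ioc
              apply Continuous.sub continuous_const
              apply Continuous.mul continuous_const
              exact Complex.continuous_re.comp (hFc.mul (by fun_prop))
        _ = 2 * Real.pi * (1 - ρ ^ 2) := by
            have i3 : Integrable (fun t : ℝ => 2 * ρ * (f (ρ * Complex.exp (ε * t * I)) *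
                Complex.exp (-(((t + φ : ℝ) : ℂ) * I))).re) μ₀ := by
              apply Continuous.integrableOn_Ioc
              apply Continuous.mul continuous_const
              exact Complex.continuous_re.comp (hFc.mul (by fun_prop))
            rw [integral_sub (integrable_const _) i3, integral_const_mul, hh, integral_const,
              μ₀_univ, smul_eq_mul]
            ring
    -- kernel bound
    have hQ : ∀ x : ℝ, q ρ s (Real.cos x) ≤ (ρ + s) / (ρ - s) := by
      intro x
      have hρs' : 0 < ρ - s := by linarith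
      unfold q
      have h1 : ρ ^ 2 + s ^ 2 - 2 * ρ * s * Real.cos x ≥ (ρ - s) ^ 2 := by
        have := Real.cos_le_one x
        have h2 : 0 ≤ 2 * ρ * s * (1 - Real.cos x) := by
          apply mul_nonneg (by positivity); linarith
        nlinarith
      calc (ρ ^ 2 - s ^ 2) / (ρ ^ 2 + s ^ 2 - 2 * ρ * s * Real.cos x)
          ≤ (ρ ^ 2 - s ^ 2) / (ρ - s) ^ 2 := by
            apply div_le_div_of_nonneg_left (num_pos hs hρs).le (by positivity) h1
        _ = (ρ + s) / (ρ - s) := by
            field_simp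
            ring
    have hEw : ∀ t, |(E t * Complex.exp (-(w * I))).re| ≤ ‖E t‖ ^ 2 / (2 * l) + l / 2 := by
      intro t
      have h1 : |(E t * Complex.exp (-(w * I))).re| ≤ ‖E t‖ := by
        refine (Complex.abs_re_le_norm _).trans ?_
        rw [norm_mul, norm_exp_neg, mul_one]
      have h2 : ‖E t‖ ≤ ‖E t‖ ^ 2 / (2 * l) + l / 2 := by
        have h3 : ‖E t‖ ^ 2 / (2 * l) + l / 2 - ‖E t‖ = (‖E t‖ - l) ^ 2 / (2 * l) := by
          field_simp; ring
        have h4 : 0 ≤ (‖E t‖ - l) ^ 2 / (2 * l) := by positivity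
        linarith
      exact h1.trans h2
    have hpi := two_pi_pos'
    have hqi := integrable_q hs hρs b
    have i4 : Integrable (fun t => q ρ s (Real.cos (t - b)) * (‖E t‖ ^ 2 / (2 * l) + l / 2)) μ₀ := by
      apply Continuous.integrableOn_Ioc
      apply Continuous.mul
      · exact (continuousOn_q hs hρs).comp_continuous (by fun_prop)
          (fun θ => ⟨Real.neg_one_le_cos _, Real.cos_le_one _⟩)
      · fun_prop
    have i5 : Integrable (fun t => (ρ + s) / (ρ - s) * (‖E t‖ ^ 2 / (2 * l))) μ₀ := by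
      apply Continuous.integrableOn_Ioc
      fun_prop
    calc |d| = (2 * Real.pi)⁻¹ * |∫ t, q ρ s (Real.cos (t - b)) *
        (E t * Complex.exp (-(w * I))).re ∂μ₀| := by
          rw [hrep, abs_mul, abs_of_pos (inv_pos.2 hpi)]
      _ ≤ (2 * Real.pi)⁻¹ * ∫ t, q ρ s (Real.cos (t - b)) * (‖E t‖ ^ 2 / (2 * l) + l / 2) ∂μ₀ := by
          apply mul_le_mul_of_nonneg_left _ (inv_nonneg.2 hpi.le)
          refine (abs_integral_le_integral_abs).trans ?_
          apply integral_mono_of_nonneg (Filter.Eventually.of_forall (fun t => abs_nonneg _)) i4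
          filter_upwards with t
          rw [abs_mul, abs_of_pos (q_pos hs hρs (Real.cos_le_one _))]
          exact mul_le_mul_of_nonneg_left (hEw t) (q_pos hs hρs (Real.cos_le_one _)).le
      _ ≤ (2 * Real.pi)⁻¹ * ∫ t, ((ρ + s) / (ρ - s) * (‖E t‖ ^ 2 / (2 * l))
            + q ρ s (Real.cos (t - b)) * (l / 2)) ∂μ₀ := by
          apply mul_le_mul_of_nonneg_left _ (inv_nonneg.2 hpi.le)
          apply integral_mono i4 (i5.add (hqi.mul_const _))
          intro t
          simp only [Pi.add_apply]
          rw [mul_add]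
          have : 0 ≤ ‖E t‖ ^ 2 / (2 * l) := by positivity
          linarith [mul_le_mul_of_nonneg_right (hQ (t - b)) this]
      _ = (ρ + s) / (ρ - s) / (2 * l) * ((2 * Real.pi)⁻¹ * ∫ t, ‖E t‖ ^ 2 ∂μ₀) + l / 2 := by
          have hadd := integral_add i5 (hqi.mul_const (l / 2))
          rw [hadd, integral_const_mul, integral_mul_const, integral_div, mul_add]
          have h8 := q_avg hs hρs b
          rw [← mul_assoc (2 * Real.pi)⁻¹ (∫ t, q ρ s (Real.cos (t - b)) ∂μ₀), h8]
          ring
      _ ≤ (ρ + s) / (ρ - s) / (2 * l) * ((2 * Real.pi)⁻¹ * (2 * Real.pi * (1 - ρ ^ 2))) + l / 2 := by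
          have hρs' : 0 < ρ - s := by linarith
          have h9 : 0 ≤ (ρ + s) / (ρ - s) / (2 * l) := by positivity
          have h10 := mul_le_mul_of_nonneg_left hL2 (inv_nonneg.2 hpi.le)
          linarith [mul_le_mul_of_nonneg_left h10 h9]
      _ = (ρ + s) / (ρ - s) * ((1 - ρ ^ 2) / (2 * l)) + l / 2 := by
          have hρs' : ρ - s ≠ 0 := by
            have : 0 < ρ - s := by linarith
            exact this.ne'
          field_simp
  have lim : ∀ l > 0, |d| ≤ l / 2 := by
    intro l hl
    have h1s : (1:ℝ) - s ≠ 0 := by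
      have : 0 < 1 - s := by linarith
      exact this.ne'
    have t1 : Tendsto (fun ρ : ℝ => (ρ + s) / (ρ - s) * ((1 - ρ ^ 2) / (2 * l)) + l / 2)
        (𝓝[<] 1) (𝓝 ((1 + s) / (1 - s) * ((1 - 1 ^ 2) / (2 * l)) + l / 2)) := by
      apply Tendsto.mono_left _ nhdsWithin_le_nhds
      apply ContinuousAt.tendsto
      fun_prop (disch := assumption)
    have h2 : |d| ≤ (1 + s) / (1 - s) * ((1 - 1 ^ 2) / (2 * l)) + l / 2 := by
      apply ge_of_tendsto t1
      have h3 : max 0 (max r s) < 1 := max_lt one_pos (max_lt hr1 hs1)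
      filter_upwards [Ioo_mem_nhdsLT h3] with ρ hρ
      exact main ρ hρ.1 hρ.2 l hl
    simpa using h2
  have hd0 : d = 0 := by
    by_contra hne
    have h1 : 0 < |d| := abs_pos.2 hne
    have := lim |d| h1
    linarith
  linarith

include hf hε hb in
theorem rigid {r φ : ℝ} (hr1 : r < 1)
    (h : ∀ ρ, r < ρ → ρ < 1 → ∫ t, (f (ρ * Complex.exp (ε * t * I)) *
      Complex.exp (-(((t + φ : ℝ) : ℂ) * I))).re ∂μ₀ = 2 * Real.pi * ρ)
    {s : ℝ} (hs : 0 ≤ s) (hs1 : s < 1) (b : ℝ) :
    f (s * Complex.exp (ε * b * I)) = Complex.exp (φ * I) * (s * Complex.exp (b * I)) := by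
  have h0 := rigid_re hf hε hb hr1 h hs hs1 b 0
  have h1 := rigid_re hf hε hb hr1 h hs hs1 b (Real.pi / 2)
  set X := f (s * Complex.exp (ε * b * I)) * Complex.exp (-(φ * I)) with hX
  set Y := (s * Complex.exp (b * I) : ℂ) with hY
  have hI : Complex.exp (-(((Real.pi / 2 : ℝ) : ℂ) * I)) = -I := by
    rw [show -(((Real.pi / 2 : ℝ) : ℂ) * I) = -(Real.pi / 2 * I) by push_cast; ring,
      Complex.exp_neg, Complex.exp_pi_div_two_mul_I, Complex.inv_I]
  have e0 : f (s * Complex.exp (ε * b * I)) * Complex.exp (-(((0 + φ : ℝ) : ℂ) * I)) = X := by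
    rw [hX, zero_add]
  have e1 : f (s * Complex.exp (ε * b * I)) * Complex.exp (-(((Real.pi / 2 + φ : ℝ) : ℂ) * I))
      = X * (-I) := by
    have h9 : Complex.exp (-(((Real.pi / 2 + φ : ℝ) : ℂ) * I))
          = Complex.exp (-(φ * I)) * Complex.exp (-(((Real.pi / 2 : ℝ) : ℂ) * I)) := by
        rw [← Complex.exp_add]
        congr 1
        push_cast; ring
    rw [hX, ← hI, h9, mul_assoc, mul_assoc]
  rw [e0] at h0
  rw [e1, hI] at h1
  have h2 : X.re = Y.re := by simpa using h0
  have h3 : X.im = Y.im := by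
    simpa [Complex.mul_re] using h1
  have h4 : X = Y := Complex.ext h2 h3
  have h5 : Complex.exp (φ * I) * Complex.exp (-(φ * I)) = 1 := by
    rw [← Complex.exp_add]; simp
  rw [← h4, hX]
  linear_combination (-f (s * Complex.exp (ε * b * I))) * h5

end HArea
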