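import Mathlib
import Pool.Agent.HArea.BM2

open MeasureTheory Complex Set
open scoped ENNReal

namespace HArea

/-- support function of a set in direction `exp (i θ)` -/
noncomputable def supp (K : Set ℂ) (θ : ℝ) : ℝ :=
  sSup ((fun z : ℂ => (z * Complex.exp (-(θ * Complex.I))).re) '' K)

theorem vol_image_equiv (A : Set ℂ) :
    volume (measurableEquivRealProd '' A) = volume A := by
  have := volume_preserving_equiv_real_prod.symm.measure_preimage_equiv A
  rw [← this]
  congr 1
  exact MeasurableEquiv.image_eq_preimage_symm _ _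

theorem compact_image_equiv {A : Set ℂ} (hA : IsCompact A) :
    IsCompact (measurableEquivRealProd '' A) := by
  refine hA.image ?_
  exact equivRealProdCLM.continuous

/-- planar Brunn-Minkowski, equal volume form -/
theorem brunn_minkowski_half (A B : Set ℂ) (hA : IsCompact A) (hB : IsCompact B)
    (h : volume A = volume B) :
    volume A ≤ volume ((fun p : ℂ × ℂ => (p.1 + p.2) / 2) '' (A ×ˢ B)) := by
  have h1 := bm_prod _ _ (compact_image_equiv hA) (compact_image_equiv hB)
    (by rw [vol_image_equiv, vol_image_equiv, h])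
  rw [vol_image_equiv] at h1
  refine h1.trans ?_
  rw [← vol_image_equiv ((fun p : ℂ × ℂ => (p.1 + p.2) / 2) '' (A ×ˢ B))]
  refine measure_mono ?_
  rintro _ ⟨⟨_, _⟩, ⟨⟨a, ha, rfl⟩, ⟨b, hb, rfl⟩⟩, rfl⟩
  refine ⟨(a + b) / 2, ⟨(a, b), ⟨ha, hb⟩, rfl⟩, ?_⟩
  apply Prod.ext
  · simp [measurableEquivRealProd_apply]
    ring
  · simp [measurableEquivRealProd_apply]
    ring

theorem supp_bdd {K : Set ℂ} (hK : IsCompact K) (θ : ℝ) :
    BddAbove ((fun z : ℂ => (z * Complex.exp (-(θ * Complex.I))).re) '' K) :=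
  (hK.image (by fun_prop)).bddAbove

theorem re_le_supp {K : Set ℂ} (hK : IsCompact K) {z : ℂ} (hz : z ∈ K) (θ : ℝ) :
    (z * Complex.exp (-(θ * Complex.I))).re ≤ supp K θ :=
  le_csSup (supp_bdd hK θ) ⟨z, hz, rfl⟩

theorem supp_attained {K : Set ℂ} (hK : IsCompact K) (hne : K.Nonempty) (θ : ℝ) :
    ∃ z ∈ K, (z * Complex.exp (-(θ * Complex.I))).re = supp K θ := by
  have := (hK.image (f := fun z : ℂ => (z * Complex.exp (-(θ * Complex.I))).re)
    (by fun_prop)).sSup_mem (hne.image _)
  obtain ⟨z, hz, h⟩ := this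
  exact ⟨z, hz, h⟩

theorem supp_lip {K : Set ℂ} (hK : IsCompact K) (hne : K.Nonempty) {R : ℝ}
    (hR : ∀ z ∈ K, ‖z‖ ≤ R) (s t : ℝ) : supp K s - supp K t ≤ R * |s - t| := by
  obtain ⟨z, hz, h⟩ := supp_attained hK hne s
  have h2 := re_le_supp hK hz t
  rw [← h]
  have : (z * Complex.exp (-(s * Complex.I))).re - (z * Complex.exp (-(t * Complex.I))).re =
      (z * (Complex.exp (-(s * Complex.I)) - Complex.exp (-(t * Complex.I)))).re := by
    rw [mul_sub, Complex.sub_re]
  have h3 : ‖Complex.exp (-(s * Complex.I)) - Complex.exp (-(t * Complex.I))‖ ≤ |s - t| := by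
    have e : Complex.exp (-(s * Complex.I)) - Complex.exp (-(t * Complex.I)) =
        Complex.exp ((-t : ℝ) * Complex.I) * (Complex.exp (Complex.I * (t - s : ℝ)) - 1) := by
      rw [mul_sub, ← Complex.exp_add, mul_one]
      congr 2
      · push_cast; ring
      · push_cast; ring
    rw [e, norm_mul, Complex.norm_exp_ofReal_mul_I, one_mul]
    refine (Real.norm_exp_I_mul_ofReal_sub_one_le).trans ?_
    rw [Real.norm_eq_abs, abs_sub_comm]
  have h4 : (z * (Complex.exp (-(s * Complex.I)) - Complex.exp (-(t * Complex.I)))).re ≤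
      R * |s - t| := by
    refine (Complex.re_le_norm _).trans ?_
    rw [norm_mul]
    have hz1 := hR z hz
    have hz2 : 0 ≤ ‖z‖ := norm_nonneg _
    exact mul_le_mul hz1 h3 (norm_nonneg _) (hz2.trans hz1)
  linarith

theorem supp_continuous {K : Set ℂ} (hK : IsCompact K) (hne : K.Nonempty) :
    Continuous (supp K) := by
  obtain ⟨R, hR⟩ := hK.isBounded.exists_norm_le
  have hR0 : 0 ≤ R := by
    obtain ⟨z, hz⟩ := hne
    exact (norm_nonneg z).trans (hR z hz)
  have : LipschitzWith (Real.toNNReal R) (supp K) := by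
    refine LipschitzWith.of_dist_le_mul fun s t => ?_
    rw [Real.dist_eq, Real.dist_eq, Real.coe_toNNReal _ hR0]
    rw [abs_le]
    constructor
    · have := supp_lip hK hne hR t s
      rw [abs_sub_comm] at this
      linarith
    · exact supp_lip hK hne hR s t
  exact this.continuous

theorem supp_periodic (K : Set ℂ) : Function.Periodic (supp K) (2 * Real.pi) := by
  intro θ
  unfold supp
  congr 2
  funext z
  have : Complex.exp (-(((θ + 2 * Real.pi : ℝ) : ℂ) * Complex.I)) =
      Complex.exp (-(θ * Complex.I)) := by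
    rw [← Complex.exp_periodic.sub_eq (-(θ * Complex.I))]
    congr 1
    push_cast
    ring
  rw [this]

/-- the rotated set -/
def rot (φ : ℝ) (K : Set ℂ) : Set ℂ := (fun z : ℂ => Complex.exp (-(φ * Complex.I)) * z) '' K

theorem rot_compact {K : Set ℂ} (hK : IsCompact K) (φ : ℝ) : IsCompact (rot φ K) :=
  hK.image (by fun_prop)

theorem supp_rot {K : Set ℂ} (hK : IsCompact K) (hne : K.Nonempty) (φ θ : ℝ) :
    supp (rot φ K) θ ≤ supp K (θ + φ) := by
  obtain ⟨_, ⟨z, hz, rfl⟩, h⟩ := supp_attained (rot_compact hK φ) (hne.image _) θ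
  rw [← h]
  refine le_trans (le_of_eq ?_) (re_le_supp hK hz (θ + φ))
  congr 1
  beta_reduce
  rw [mul_comm (Complex.exp _) z, mul_assoc, ← Complex.exp_add]
  congr 2
  push_cast
  ring

theorem vol_rot {K : Set ℂ} (hK : IsCompact K) (φ : ℝ) : volume (rot φ K) = volume K := by
  have hn : ‖Complex.exp (-(φ * Complex.I))‖ = 1 := by
    have := Complex.norm_exp_ofReal_mul_I (-φ)
    simpa using this
  let u : Circle := ⟨Complex.exp (-(φ * Complex.I)), by
    simpa [Submonoid.unitSphere] using hn⟩
  have h1 := (rotation u).measurePreserving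
  have h2 := h1.measure_preimage (rot_compact hK φ).measurableSet.nullMeasurableSet
  rw [← h2]
  congr 1
  ext z
  constructor
  · rintro ⟨w, hw, hwz⟩
    have hwz' : rotation u w = rotation u z := hwz
    rw [(rotation u).injective hwz'] at hw
    exact hw
  · intro hz
    exact ⟨z, hz, rfl⟩

theorem vol_le_of_avg (δ : ℝ) (k : ℕ) : ∀ (K : Set ℂ), IsCompact K → K.Nonempty → ∀ C : ℝ,
    (∀ θ : ℝ, ∑ m ∈ Finset.range (2 ^ k), supp K (θ + m * δ) ≤ 2 ^ k * C) →
    volume.real K ≤ Real.pi * C ^ 2 := by
  induction k with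
  | zero =>
    intro K hK hne C hC
    simp only [pow_zero, Finset.range_one, Finset.sum_singleton, Nat.cast_zero, zero_mul,
      add_zero, one_mul] at hC
    have hsub : K ⊆ Metric.closedBall 0 C := by
      intro z hz
      have h1 := (re_le_supp hK hz (Complex.arg z)).trans (hC _)
      have h2 : z * Complex.exp (-(Complex.arg z * Complex.I)) = (‖z‖ : ℂ) := by
        nth_rewrite 1 [← Complex.norm_mul_exp_arg_mul_I z]
        rw [mul_assoc, ← Complex.exp_add]
        simp
      rw [h2, Complex.ofReal_re] at h1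
      simpa using h1
    have hC0 : 0 ≤ C := by
      obtain ⟨z, hz⟩ := hne
      have := hsub hz
      simp only [Metric.mem_closedBall, dist_zero_right] at this
      exact (norm_nonneg z).trans this
    have h3 := measure_mono (μ := (volume : Measure ℂ)) hsub
    rw [Complex.volume_closedBall] at h3
    have h4 := ENNReal.toReal_mono (by finiteness) h3
    rw [ENNReal.toReal_mul, ENNReal.toReal_pow, ENNReal.toReal_ofReal hC0] at h4
    simp only [ENNReal.coe_toReal, NNReal.coe_real_pi] at h4
    rw [Measure.real]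
    linarith
  | succ k ih =>
    intro K hK hne C hC
    set φ : ℝ := 2 ^ k * δ with hφ
    set K' := ((fun p : ℂ × ℂ => (p.1 + p.2) / 2) '' (K ×ˢ rot φ K)) with hK'
    have hK'c : IsCompact K' := (hK.prod (rot_compact hK φ)).image (by fun_prop)
    have hK'n : K'.Nonempty := (hne.prod (hne.image _)).image _
    have hle : volume K ≤ volume K' :=
      brunn_minkowski_half K (rot φ K) hK (rot_compact hK φ) (vol_rot hK φ).symm
    have hs : ∀ θ, supp K' θ ≤ (supp K θ + supp K (θ + φ)) / 2 := by
      intro θ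
      obtain ⟨_, ⟨⟨a, b⟩, ⟨ha, hb⟩, rfl⟩, h⟩ := supp_attained hK'c hK'n θ
      rw [← h]
      have h1 := re_le_supp hK ha θ
      have h2 := (re_le_supp (rot_compact hK φ) hb θ).trans (supp_rot hK hne φ θ)
      have e : ((a + b) / 2 * Complex.exp (-(θ * Complex.I))).re =
          ((a * Complex.exp (-(θ * Complex.I))).re +
            (b * Complex.exp (-(θ * Complex.I))).re) / 2 := by
        rw [← Complex.add_re, ← add_mul, div_mul_eq_mul_div]
        simp
      simp only [e]
      linarith
    have := ih K' hK'c hK'n C (by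
      intro θ
      have h1 : ∑ m ∈ Finset.range (2 ^ k), supp K' (θ + m * δ) ≤
          ∑ m ∈ Finset.range (2 ^ k), (supp K (θ + m * δ) + supp K (θ + m * δ + φ)) / 2 :=
        Finset.sum_le_sum fun m _ => hs _
      have h2 := hC θ
      rw [pow_succ, mul_two, Finset.sum_range_add] at h2
      rw [← Finset.sum_div, Finset.sum_add_distrib] at h1
      have h3 : ∑ m ∈ Finset.range (2 ^ k), supp K (θ + m * δ + φ) =
          ∑ m ∈ Finset.range (2 ^ k), supp K (θ + ((2 ^ k + m : ℕ) : ℝ) * δ) := by
        refine Finset.sum_congr rfl fun m _ => ?_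
        congr 1
        rw [hφ]
        push_cast
        ring
      rw [h3] at h1
      have h4 : (2 : ℝ) ^ (k + 1) * C = 2 * (2 ^ k * C) := by ring
      linarith)
    refine le_trans ?_ this
    exact ENNReal.toReal_mono hK'c.measure_lt_top.ne hle

theorem avg_le {K : Set ℂ} (hK : IsCompact K) (hne : K.Nonempty) {R : ℝ}
    (hR : ∀ z ∈ K, ‖z‖ ≤ R) (n : ℕ) (hn : 0 < n) (θ : ℝ) :
    ∑ m ∈ Finset.range n, supp K (θ + m * (2 * Real.pi / n)) ≤
      n * ((∫ θ in (0:ℝ)..(2 * Real.pi), supp K θ) / (2 * Real.pi) + R * (2 * Real.pi / n)) := by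
  set δ : ℝ := 2 * Real.pi / n with hδ
  have hn' : (0 : ℝ) < n := by exact_mod_cast hn
  have hδ0 : 0 < δ := by positivity
  have hcont := supp_continuous hK hne
  have h1 : (∫ θ in (0:ℝ)..(2 * Real.pi), supp K θ) = ∫ x in θ..(θ + 2 * Real.pi), supp K x := by
    have := (supp_periodic K).intervalIntegral_add_eq 0 θ
    simpa using this
  have h2 : ∫ x in θ..(θ + 2 * Real.pi), supp K x =
      ∑ m ∈ Finset.range n, ∫ x in (θ + m * δ)..(θ + (m + 1 : ℕ) * δ), supp K x := by
    rw [intervalIntegral.sum_integral_adjacent_intervals (a := fun m : ℕ => θ + m * δ)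
      (fun m _ => hcont.intervalIntegrable _ _)]
    congr 1
    · simp
    · rw [hδ]; field_simp
  have h3 : ∀ m : ℕ, δ * (supp K (θ + m * δ) - R * δ) ≤
      ∫ x in (θ + m * δ)..(θ + (m + 1 : ℕ) * δ), supp K x := by
    intro m
    have hab : θ + m * δ ≤ θ + (m + 1 : ℕ) * δ := by
      push_cast
      nlinarith
    have := intervalIntegral.integral_mono_on (μ := volume) hab
      (f := fun _ => supp K (θ + m * δ) - R * δ) (g := supp K)
      intervalIntegrable_const (hcont.intervalIntegrable _ _) (by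
        intro x hx
        have h := supp_lip hK hne hR (θ + m * δ) x
        have hR0 : 0 ≤ R := by
          obtain ⟨z, hz⟩ := hne
          exact (norm_nonneg z).trans (hR z hz)
        have h5 : |θ + m * δ - x| ≤ δ := by
          rw [abs_le]
          constructor
          · have := hx.2
            push_cast at this
            linarith
          · have := hx.1
            linarith
        have : R * |θ + m * δ - x| ≤ R * δ := mul_le_mul_of_nonneg_left h5 hR0
        linarith)
    refine le_trans (le_of_eq ?_) this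
    rw [intervalIntegral.integral_const, smul_eq_mul]
    push_cast
    ring
  have h4 : ∑ m ∈ Finset.range n, δ * (supp K (θ + m * δ) - R * δ) ≤
      ∫ θ in (0:ℝ)..(2 * Real.pi), supp K θ := by
    rw [h1, h2]
    exact Finset.sum_le_sum fun m _ => h3 m
  rw [← Finset.mul_sum, Finset.sum_sub_distrib, Finset.sum_const, Finset.card_range,
    nsmul_eq_mul] at h4
  set S := ∑ m ∈ Finset.range n, supp K (θ + m * δ) with hS
  set J := ∫ θ in (0:ℝ)..(2 * Real.pi), supp K θ with hJ
  have h5 : S - n * (R * δ) ≤ J / δ := by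
    rw [le_div_iff₀ hδ0]
    linarith
  have h6 : J / δ = n * (J / (2 * Real.pi)) := by
    rw [hδ]
    field_simp
  rw [h6] at h5
  linarith

/-- planar Urysohn inequality: area ≤ (∫ support function)^2 / (4π). -/
theorem urysohn_plane (K : Set ℂ) (hK : IsCompact K) (hne : K.Nonempty) :
    volume.real K ≤ (∫ θ in (0:ℝ)..(2 * Real.pi), supp K θ) ^ 2 / (4 * Real.pi) := by
  obtain ⟨R, hR⟩ := hK.isBounded.exists_norm_le
  set J := ∫ θ in (0:ℝ)..(2 * Real.pi), supp K θ with hJ
  have h1 : ∀ k : ℕ, volume.real K ≤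
      Real.pi * (J / (2 * Real.pi) + R * (2 * Real.pi / ((2 : ℝ) ^ k))) ^ 2 := by
    intro k
    refine vol_le_of_avg (2 * Real.pi / (2 : ℝ) ^ k) k K hK hne _ fun θ => ?_
    have := avg_le hK hne hR (2 ^ k) (by positivity) θ
    push_cast at this
    exact this
  have h2 : Filter.Tendsto (fun k : ℕ => Real.pi * (J / (2 * Real.pi) +
      R * (2 * Real.pi / ((2 : ℝ) ^ k))) ^ 2) Filter.atTop
      (nhds (Real.pi * (J / (2 * Real.pi) + R * 0) ^ 2)) := by
    have h3 : Filter.Tendsto (fun k : ℕ => 2 * Real.pi / ((2 : ℝ) ^ k)) Filter.atTop (nhds 0) := by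
      have := (tendsto_pow_atTop_nhds_zero_of_lt_one (r := (1 / 2 : ℝ)) (by norm_num)
        (by norm_num)).const_mul (2 * Real.pi)
      simp only [mul_zero] at this
      refine this.congr fun k => ?_
      rw [one_div, inv_pow, div_eq_mul_inv]
    exact ((h3.const_mul R).const_add _).pow 2 |>.const_mul _
  have h3 := ge_of_tendsto' h2 h1
  refine h3.trans (le_of_eq ?_)
  field_simp
  ring

end HArea
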