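import Pool.Agent.HArea.Ineq
import Pool.Agent.HArea.Urysohn

open MeasureTheory Complex Set

namespace HArea

theorem exists_argmax (g : ℝ → ℝ → ℝ) (hg : Continuous (Function.uncurry g)) :
    ∃ α : ℝ → ℝ, Measurable α ∧ (∀ θ, α θ ∈ Icc 0 (2 * Real.pi)) ∧
      ∀ θ, ∀ a ∈ Icc 0 (2 * Real.pi), g θ a ≤ g θ (α θ) := by
  set S : ℝ → Set ℝ := fun θ => {a | a ∈ Icc 0 (2 * Real.pi) ∧
    ∀ b ∈ Icc 0 (2 * Real.pi), g θ b ≤ g θ a} with hS
  have hgc : ∀ θ, Continuous (g θ) := fun θ => hg.comp (Continuous.prodMk_right θ)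
  have hSne : ∀ θ, (S θ).Nonempty := by
    intro θ
    obtain ⟨a, ha, hmax⟩ := (isCompact_Icc (a := 0) (b := 2 * Real.pi)).exists_isMaxOn
      ⟨0, by constructor <;> [exact le_rfl; exact two_pi_pos'.le]⟩ (hgc θ).continuousOn
    exact ⟨a, ha, fun b hb => hmax hb⟩
  have hSc : ∀ θ, IsCompact (S θ) := by
    intro θ
    apply IsCompact.of_isClosed_subset (isCompact_Icc (a := 0) (b := 2 * Real.pi))
    · apply IsClosed.inter isClosed_Icc
      have : {a | ∀ b ∈ Icc 0 (2 * Real.pi), g θ b ≤ g θ a}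
          = ⋂ b ∈ Icc 0 (2 * Real.pi), {a | g θ b ≤ g θ a} := by
        ext a; simp
      show IsClosed {a | ∀ b ∈ Icc 0 (2 * Real.pi), g θ b ≤ g θ a}
      rw [this]
      apply isClosed_biInter
      intro b _
      exact isClosed_le continuous_const (hgc θ)
    · intro a ha; exact ha.1
  have hmem : ∀ θ, sInf (S θ) ∈ S θ := fun θ => (hSc θ).sInf_mem (hSne θ)
  refine ⟨fun θ => sInf (S θ), ?_, fun θ => (hmem θ).1, fun θ => (hmem θ).2⟩
  apply measurable_of_Iic
  intro c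
  apply IsClosed.measurableSet
  have hT : IsClosed {p : ℝ × Icc (0:ℝ) (2 * Real.pi) | (p.2 : ℝ) ≤ c ∧
      ∀ b ∈ Icc (0:ℝ) (2 * Real.pi), g p.1 b ≤ g p.1 p.2} := by
    apply IsClosed.inter
    · exact isClosed_le (continuous_subtype_val.comp continuous_snd) continuous_const
    · have : {p : ℝ × Icc (0:ℝ) (2 * Real.pi) |
          ∀ b ∈ Icc (0:ℝ) (2 * Real.pi), g p.1 b ≤ g p.1 p.2}
          = ⋂ b ∈ Icc 0 (2 * Real.pi), {p : ℝ × Icc (0:ℝ) (2 * Real.pi) |
            g p.1 b ≤ g p.1 p.2} := by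
        ext a; simp
      show IsClosed {p : ℝ × Icc (0:ℝ) (2 * Real.pi) |
          ∀ b ∈ Icc (0:ℝ) (2 * Real.pi), g p.1 b ≤ g p.1 p.2}
      rw [this]
      apply isClosed_biInter
      intro b _
      apply isClosed_le
      · exact hg.comp (continuous_fst.prodMk continuous_const)
      · exact hg.comp (continuous_fst.prodMk (continuous_subtype_val.comp continuous_snd))
  have himg := (isClosedMap_fst_of_compactSpace (X := ℝ) (Y := Icc (0:ℝ) (2 * Real.pi))) _ hT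
  convert himg using 1
  ext θ
  simp only [mem_preimage, mem_Iic, mem_image, mem_ofPred_eq, Prod.exists, exists_and_right,
    exists_eq_right, Subtype.exists]
  constructor
  · intro h
    exact ⟨sInf (S θ), ⟨(hmem θ).1, h⟩, (hmem θ).2⟩
  · rintro ⟨a, ⟨ha, hac⟩, hb⟩
    exact (csInf_le (hSc θ).bddBelow ⟨ha, hb⟩).trans hac

section

variable {f : ℂ → ℂ} (hf : InnerProductSpace.HarmonicOnNhd f (Metric.ball 0 1))
include hf

theorem harm_dir (θ : ℝ) : InnerProductSpace.HarmonicOnNhd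
    (fun z => (f z * Complex.exp (-(θ * I))).re) (Metric.ball 0 1) := by
  have := hf.comp_CLM (Complex.reCLM.comp
    ((ContinuousLinearMap.mul ℝ ℂ).flip (Complex.exp (-(θ * I)))))
  exact this

omit hf in
theorem circ_mem {ρ : ℝ} (h0 : 0 ≤ ρ) (h1 : ρ < 1) (t : ℝ) :
    (ρ * Complex.exp (t * I) : ℂ) ∈ Metric.ball (0:ℂ) 1 := by
  rw [mem_ball_zero_iff, norm_mul, Complex.norm_exp_ofReal_mul_I, mul_one, Complex.norm_real,
      Real.norm_eq_abs, abs_of_nonneg h0]
  exact h1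

theorem cont_circ {ρ : ℝ} (h0 : 0 ≤ ρ) (h1 : ρ < 1) :
    Continuous (fun t : ℝ => f (ρ * Complex.exp (t * I))) :=
  hf.continuousOn.comp_continuous (by fun_prop) (circ_mem h0 h1)

theorem cont_g {ρ : ℝ} (h0 : 0 ≤ ρ) (h1 : ρ < 1) :
    Continuous (Function.uncurry (fun (θ a : ℝ) =>
      (f (ρ * Complex.exp (a * I)) * Complex.exp (-(θ * I))).re)) := by
  have h := cont_circ hf h0 h1
  have h2 : Continuous (fun p : ℝ × ℝ => f (ρ * Complex.exp (p.2 * I))) :=
    h.comp continuous_snd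
  exact Complex.continuous_re.comp (h2.mul (by fun_prop))

theorem poisson_f {r ρ : ℝ} (hr : 0 ≤ r) (hρ : r < ρ) (hρ1 : ρ < 1) (θ a : ℝ) :
    (f (r * Complex.exp (a * I)) * Complex.exp (-(θ * I))).re = (2 * Real.pi)⁻¹ *
      ∫ t, q ρ r (Real.cos (t - a)) *
        (f (ρ * Complex.exp (t * I)) * Complex.exp (-(θ * I))).re ∂μ₀ :=
  poisson hr hρ (u := fun z => (f z * Complex.exp (-(θ * I))).re)
    ((harm_dir hf θ).mono (Metric.closedBall_subset_ball hρ1)) a

omit hf in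
theorem q_avg {r ρ : ℝ} (hr : 0 ≤ r) (hρ : r < ρ) (a : ℝ) :
    (2 * Real.pi)⁻¹ * ∫ t, q ρ r (Real.cos (t - a)) ∂μ₀ = 1 := by
  have := poisson hr hρ (u := fun _ => (1:ℝ))
    (InnerProductSpace.harmonicOnNhd_const (1:ℝ)) a
  simpa using this.symm

omit hf in
theorem integrable_q {r ρ : ℝ} (hr : 0 ≤ r) (hρ : r < ρ) (a : ℝ) :
    Integrable (fun t => q ρ r (Real.cos (t - a))) μ₀ := by
  apply Continuous.integrableOn_Ioc
  exact (continuousOn_q hr hρ).comp_continuous (by fun_prop)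
      (fun θ => ⟨Real.neg_one_le_cos _, Real.cos_le_one _⟩)

theorem max_principle {r : ℝ} (hr : 0 < r) (hr1 : r < 1) (θ M : ℝ)
    (hM : ∀ t : ℝ, (f (r * Complex.exp (t * I)) * Complex.exp (-(θ * I))).re ≤ M)
    (z : ℂ) (hz : ‖z‖ ≤ r) : (f z * Complex.exp (-(θ * I))).re ≤ M := by
  have hzz := Complex.norm_mul_exp_arg_mul_I z
  rcases hz.lt_or_eq with h | h
  · rw [← hzz, poisson_f hf (norm_nonneg z) h hr1 θ]
    have hq := q_avg (norm_nonneg z) h z.arg
    have e : M = (2 * Real.pi)⁻¹ * ∫ t, M * q r ‖z‖ (Real.cos (t - z.arg)) ∂μ₀ := by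
      rw [integral_const_mul]
      calc M = M * ((2 * Real.pi)⁻¹ * ∫ t, q r ‖z‖ (Real.cos (t - z.arg)) ∂μ₀) := by
            rw [hq, mul_one]
        _ = _ := by ring
    rw [e]
    apply mul_le_mul_of_nonneg_left _ (inv_nonneg.2 two_pi_pos'.le)
    apply integral_mono
    · apply Continuous.integrableOn_Ioc
      apply Continuous.mul
      · exact (continuousOn_q (norm_nonneg z) h).comp_continuous (by fun_prop)
          (fun θ => ⟨Real.neg_one_le_cos _, Real.cos_le_one _⟩)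
      · exact Complex.continuous_re.comp ((cont_circ hf hr.le hr1).mul continuous_const)
    · exact (integrable_q (norm_nonneg z) h _).const_mul M
    · intro t
      simp only
      rw [mul_comm M]
      exact mul_le_mul_of_nonneg_left (hM t) (q_pos (norm_nonneg z) h (Real.cos_le_one _)).le
  · rw [← hzz, h]
    exact hM _

theorem exists_selection {r : ℝ} (hr : 0 < r) (hr1 : r < 1) :
    ∃ α : ℝ → ℝ, Measurable α ∧ (∀ θ, α θ ∈ Icc 0 (2 * Real.pi)) ∧
      ∀ θ, supp (f '' Metric.closedBall 0 r) θ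
        = (f (r * Complex.exp (α θ * I)) * Complex.exp (-(θ * I))).re := by
  obtain ⟨α, hα, hI, hmax⟩ := exists_argmax _ (cont_g hf hr.le hr1)
  refine ⟨α, hα, hI, ?_⟩
  intro θ
  unfold supp
  apply IsGreatest.csSup_eq
  constructor
  · refine ⟨f (r * Complex.exp (α θ * I)), ⟨_, ?_, rfl⟩, rfl⟩
    rw [mem_closedBall_zero_iff, norm_mul, Complex.norm_exp_ofReal_mul_I, mul_one,
      Complex.norm_real, Real.norm_eq_abs, abs_of_nonneg hr.le]
  · rintro x ⟨w, ⟨z, hz, rfl⟩, rfl⟩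
    simp only
    apply max_principle hf hr hr1 θ _ _ z (by simpa using hz)
    intro t
    obtain ⟨y, hy, hyt⟩ : ∃ y ∈ Ico 0 (2 * Real.pi), Complex.exp (y * I) = Complex.exp (t * I) := by
      refine ⟨toIcoMod two_pi_pos' 0 t, by simpa using toIcoMod_mem_Ico two_pi_pos' 0 t, ?_⟩
      have := self_sub_toIcoDiv_zsmul two_pi_pos' 0 t
      rw [← this, Complex.exp_eq_exp_iff_exists_int]
      refine ⟨-(toIcoDiv two_pi_pos' 0 t), ?_⟩
      rw [zsmul_eq_mul]
      push_cast; ring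
    rw [← hyt]
    exact hmax θ y ⟨hy.1, hy.2.le⟩

end

end HArea
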