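import Pool.Agent.HArea.Select

open MeasureTheory Complex Set Filter Topology

namespace HArea

variable {f : ℂ → ℂ} (hf : InnerProductSpace.HarmonicOnNhd f (Metric.ball 0 1))
  (hb : ∀ z ∈ Metric.ball (0:ℂ) 1, ‖f z‖ ≤ 1) {r : ℝ} (hr : 0 < r) (hr1 : r < 1)
  {α : ℝ → ℝ} (hα : Measurable α)
  (hsel : ∀ θ, supp (f '' Metric.closedBall 0 r) θ
        = (f (r * Complex.exp (α θ * I)) * Complex.exp (-(θ * I))).re)

include hf hb hr hα hsel in
theorem width_rho {ρ : ℝ} (hρ : r < ρ) (hρ1 : ρ < 1) :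
    (∫ θ, supp (f '' Metric.closedBall 0 r) θ ∂μ₀)
      + (2 * Real.pi)⁻¹ * ∫ s, q' ρ r s * ∫ t, Df α s t ∂μ₀ ∂ν₀ ≤ 2 * Real.pi * (r / ρ) := by
  have h := main_ineq hα hr.le hρ (fun t => f (ρ * Complex.exp (t * I)))
    (cont_circ hf (hr.le.trans hρ.le) hρ1).measurable
    (fun t => hb _ (circ_mem (hr.le.trans hρ.le) hρ1 t))
  have e : ∀ θ, supp (f '' Metric.closedBall 0 r) θ = (2 * Real.pi)⁻¹ *
      ∫ t, q ρ r (Real.cos (t - α θ)) *
        (f (ρ * Complex.exp (t * I)) * Complex.exp (-(θ * I))).re ∂μ₀ := by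
    intro θ
    rw [hsel, poisson_f hf hr.le hρ hρ1]
  simp only [e]
  exact h

include hα in
theorem X_nonneg (s : ℝ) : 0 ≤ ∫ t, Df α s t ∂μ₀ := integral_nonneg (fun t => Df_nonneg hα s t)

include hf hb hr hr1 hα hsel in
theorem width_le_aux : (∫ θ, supp (f '' Metric.closedBall 0 r) θ ∂μ₀) ≤ 2 * Real.pi * r := by
  have h1 : ∀ ρ ∈ Ioo r 1, (∫ θ, supp (f '' Metric.closedBall 0 r) θ ∂μ₀)
      ≤ 2 * Real.pi * (r / ρ) := by
    intro ρ hρ
    have h := width_rho hf hb hr hα hsel hρ.1 hρ.2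
    have h2 : 0 ≤ ∫ s, q' ρ r s * ∫ t, Df α s t ∂μ₀ ∂ν₀ := by
      apply integral_nonneg_of_ae
      filter_upwards [ae_restrict_mem measurableSet_Ioc] with s hs
      exact mul_nonneg (q'_nonneg hr.le hρ.1 hs.2) (X_nonneg hα s)
    have h3 : 0 ≤ (2 * Real.pi)⁻¹ := inv_nonneg.2 two_pi_pos'.le
    nlinarith [mul_nonneg h3 h2]
  have h2 : Tendsto (fun ρ : ℝ => 2 * Real.pi * (r / ρ)) (𝓝[<] 1) (𝓝 (2 * Real.pi * (r / 1))) := by
    apply Tendsto.mono_left _ nhdsWithin_le_nhds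
    apply ContinuousAt.tendsto
    fun_prop (disch := norm_num)
  rw [div_one] at h2
  apply ge_of_tendsto h2
  filter_upwards [Ioo_mem_nhdsLT hr1] with ρ hρ
  exact h1 ρ hρ

include hα in
theorem integrable_Df : Integrable (Function.uncurry (Df α)) (ν₀.prod μ₀) := by
  apply Integrable.of_bound (C := 6 * Real.pi)
  · exact (meas_Df hα).aestronglyMeasurable
  · have h : ∀ᵐ s ∂ν₀, s ∈ Ioc (-1:ℝ) 1 := ae_restrict_mem measurableSet_Ioc
    have h2 : ∀ᵐ p ∂(ν₀.prod μ₀), p.1 ∈ Ioc (-1:ℝ) 1 :=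
      Measure.quasiMeasurePreserving_fst.ae h
    filter_upwards [h2] with p hp
    exact Df_bound hα hp _

include hf hb hr hr1 hα hsel in
theorem Df_ae_zero (heq : (∫ θ, supp (f '' Metric.closedBall 0 r) θ ∂μ₀) = 2 * Real.pi * r) :
    ∀ᵐ p ∂(ν₀.prod μ₀), Df α p.1 p.2 = 0 := by
  have hint := integrable_Df hα
  have hX : ∫ p, Df α p.1 p.2 ∂(ν₀.prod μ₀) = ∫ s, ∫ t, Df α s t ∂μ₀ ∂ν₀ :=
    integral_prod _ hint
  have hXi : Integrable (fun s => ∫ t, Df α s t ∂μ₀) ν₀ := hint.integral_prod_left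
  set X := ∫ s, ∫ t, Df α s t ∂μ₀ ∂ν₀ with hXd
  have h1 : ∀ ρ ∈ Ioo r 1, (2 * Real.pi)⁻¹ * ((ρ ^ 2 - r ^ 2) * (2 * ρ * r) / 16 * X)
      ≤ 2 * Real.pi * (r / ρ) - 2 * Real.pi * r := by
    intro ρ hρ
    have h := width_rho hf hb hr hα hsel hρ.1 hρ.2
    rw [heq] at h
    have hρ0 : 0 < ρ := hr.trans hρ.1
    have h2 : (ρ ^ 2 - r ^ 2) * (2 * ρ * r) / 16 * X ≤ ∫ s, q' ρ r s * ∫ t, Df α s t ∂μ₀ ∂ν₀ := by
      rw [hXd, ← integral_const_mul]
      apply integral_mono_ae (hXi.const_mul _)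
      · -- integrability of q' * X
        apply Integrable.mono' (g := fun s => ‖q' ρ r s‖ * (6 * Real.pi * (2 * Real.pi)))
        · exact (integrable_q' hr.le hρ.1).norm.mul_const _
        · exact (measurable_q'.aestronglyMeasurable).mul hXi.aestronglyMeasurable
        · filter_upwards [ae_restrict_mem measurableSet_Ioc] with s hs
          rw [norm_mul]
          apply mul_le_mul_of_nonneg_left _ (norm_nonneg _)
          have := norm_integral_le_of_norm_le_const (μ := μ₀) (f := fun t => Df α s t)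
            (C := 6 * Real.pi) (Eventually.of_forall (fun t => Df_bound hα hs t))
          rwa [μ₀_univ] at this
      · filter_upwards [ae_restrict_mem measurableSet_Ioc] with s hs
        apply mul_le_mul_of_nonneg_right _ (X_nonneg hα s)
        unfold q'
        have hn : 0 ≤ (ρ ^ 2 - r ^ 2) * (2 * ρ * r) :=
          mul_nonneg (num_pos hr.le hρ.1).le (by positivity)
        have hd := den_pos hr.le hρ.1 hs.2
        apply div_le_div_of_nonneg_left hn (by positivity)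
        have hd2 : ρ ^ 2 + r ^ 2 - 2 * ρ * r * s ≤ 4 := by
          have h5 : 0 ≤ 2 * ρ * r * (1 + s) := by
            apply mul_nonneg (by positivity); linarith [hs.1]
          nlinarith [hρ.1, hρ.2, hρ0, hr]
        nlinarith
    have h3 : 0 ≤ (2 * Real.pi)⁻¹ := inv_nonneg.2 two_pi_pos'.le
    have h4 := mul_le_mul_of_nonneg_left h2 h3
    linarith
  have h2 : Tendsto (fun ρ : ℝ => (2 * Real.pi)⁻¹ * ((ρ ^ 2 - r ^ 2) * (2 * ρ * r) / 16 * X))
      (𝓝[<] 1) (𝓝 ((2 * Real.pi)⁻¹ * (((1:ℝ) ^ 2 - r ^ 2) * (2 * 1 * r) / 16 * X))) := by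
    apply Tendsto.mono_left _ nhdsWithin_le_nhds
    apply Continuous.tendsto (by fun_prop)
  have h3 : Tendsto (fun ρ : ℝ => 2 * Real.pi * (r / ρ) - 2 * Real.pi * r) (𝓝[<] 1)
      (𝓝 (2 * Real.pi * (r / 1) - 2 * Real.pi * r)) := by
    apply Tendsto.mono_left _ nhdsWithin_le_nhds
    apply ContinuousAt.tendsto
    fun_prop (disch := norm_num)
  have h4 := le_of_tendsto_of_tendsto h2 h3 (by
    filter_upwards [Ioo_mem_nhdsLT hr1] with ρ hρ
    exact h1 ρ hρ)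
  have hX0 : X ≤ 0 := by
    rw [div_one, sub_self] at h4
    have hc : 0 < (2 * Real.pi)⁻¹ * (((1:ℝ) ^ 2 - r ^ 2) * (2 * 1 * r) / 16) := by
      have : 0 < (1:ℝ) ^ 2 - r ^ 2 := num_pos hr.le hr1
      have := Real.pi_pos
      positivity
    by_contra hcon
    push Not at hcon
    have := mul_pos hc hcon
    linarith
  have h5 : ∫ p, Df α p.1 p.2 ∂(ν₀.prod μ₀) = 0 := by
    apply le_antisymm
    · rw [hX]; exact hX0
    · exact integral_nonneg (fun p => Df_nonneg hα _ _)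
  have h6 := (integral_eq_zero_iff_of_nonneg (fun p : ℝ × ℝ => Df_nonneg hα p.1 p.2) hint).1 h5
  filter_upwards [h6] with p hp
  exact hp

end HArea
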